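import Pool.Agent.H57.KN.B

/-!
Representations in the bidual of a compact operator give approximate representations in the
space, hence (iteration) exact ones.
-/

namespace Pool.Agent.H57.KN

variable {𝕜 : Type*} [RCLike 𝕜]

lemma opNorm_le_unit {Y Z : Type*} [NormedAddCommGroup Y] [NormedSpace 𝕜 Y]
    [NormedAddCommGroup Z] [NormedSpace 𝕜 Z] {S : Y →L[𝕜] Z} {C : ℝ} (hC : 0 ≤ C)
    (h : ∀ y, ‖y‖ ≤ 1 → ‖S y‖ ≤ C) : ‖S‖ ≤ C := by
  refine S.opNorm_le_bound hC fun y => ?_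
  by_cases hy : y = 0
  · subst hy
    simp
  have hn : 0 < ‖y‖ := norm_pos_iff.2 hy
  have hc : ((‖y‖ : ℝ) : 𝕜) ≠ 0 := RCLike.ofReal_ne_zero.2 hn.ne'
  have h1 : ‖(((‖y‖ : ℝ) : 𝕜)⁻¹ • y)‖ ≤ 1 := by
    rw [norm_smul, norm_inv, RCLike.norm_ofReal, abs_of_pos hn, inv_mul_cancel₀ hn.ne']
  have h2 := h _ h1
  rw [map_smul, norm_smul, norm_inv, RCLike.norm_ofReal, abs_of_pos hn,
    inv_mul_le_iff₀ hn] at h2
  rw [mul_comm]
  exact h2

lemma compact_smulRight {Y Z : Type*} [NormedAddCommGroup Y] [NormedSpace 𝕜 Y]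
    [NormedAddCommGroup Z] [NormedSpace 𝕜 Z] (f : Y →L[𝕜] 𝕜) (z : Z) :
    IsCompactOperator (f.smulRight z) := by
  have h1 : IsCompactOperator f := isCompactOperator_of_locallyCompactSpace_dom f
  exact h1.clm_comp (ContinuousLinearMap.toSpanSingleton 𝕜 z)

lemma compact_sum {Y Z : Type*} [NormedAddCommGroup Y] [NormedSpace 𝕜 Y]
    [NormedAddCommGroup Z] [NormedSpace 𝕜 Z] {N : ℕ} (f : Fin N → (Y →L[𝕜] 𝕜))
    (z : Fin N → Z) : IsCompactOperator (∑ n, (f n).smulRight (z n) : Y →L[𝕜] Z) := by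
  have : (∑ n, (f n).smulRight (z n) : Y →L[𝕜] Z) ∈
      (compactOperator (RingHom.id 𝕜) Y Z : Submodule 𝕜 (Y →L[𝕜] Z)) :=
    Submodule.sum_mem _ fun n _ => compact_smulRight (f n) (z n)
  exact this

theorem approx_step {Y : Type*} [NormedAddCommGroup Y] [NormedSpace 𝕜 Y] {T : Y →L[𝕜] Y}
    (hT : IsCompactOperator T) {N : ℕ} (f : Fin N → (Y →L[𝕜] 𝕜))
    (z : Fin N → ((Y →L[𝕜] 𝕜) →L[𝕜] 𝕜)) {ε δ : ℝ} (hε : 0 < ε) (hδ : 0 < δ)
    (h' : ∀ y, ‖y‖ ≤ 1 → ∀ φ : Y →L[𝕜] 𝕜, ‖φ (T y) - ∑ n, f n y * z n φ‖ ≤ ε * ‖φ‖) :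
    ∃ v : Fin N → Y, (∀ n, ‖v n‖ < ‖z n‖ + δ) ∧
      ‖T - ∑ n, (f n).smulRight (v n)‖ ≤ ε + 2 * δ := by
  classical
  have h : ∀ y, ‖y‖ ≤ 1 →
      ‖NormedSpace.inclusionInDoubleDual 𝕜 Y (T y) - ∑ n, f n y • z n‖ ≤ ε := by
    intro y hy
    refine ContinuousLinearMap.opNorm_le_bound _ hε.le fun φ => ?_
    have h1 : (NormedSpace.inclusionInDoubleDual 𝕜 Y (T y) - ∑ n, f n y • z n) φ =
        φ (T y) - ∑ n, f n y * z n φ := by
      rw [sub_apply, sum_apply]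
      rfl
    rw [h1]
    exact h' y hy φ
  have hK : IsCompact (closure (T '' Metric.closedBall 0 1)) :=
    hT.isCompact_closure_image_closedBall 1
  let Φ : Y → (Fin N → 𝕜) × Y := fun y => (fun n => f n y, T y)
  have hK1 : IsCompact (Metric.closedBall (0 : Fin N → 𝕜) (∑ n, ‖f n‖)) :=
    isCompact_closedBall _ _
  have hsub : Φ '' Metric.closedBall 0 1 ⊆ Metric.closedBall (0 : Fin N → 𝕜) (∑ n, ‖f n‖) ×ˢ
      closure (T '' Metric.closedBall 0 1) := by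
    rintro _ ⟨y, hy, rfl⟩
    refine ⟨?_, subset_closure ⟨y, hy, rfl⟩⟩
    rw [mem_closedBall_zero_iff] at hy ⊢
    rw [pi_norm_le_iff_of_nonneg (Finset.sum_nonneg fun n _ => norm_nonneg _)]
    intro n
    have h1 : ‖f n y‖ ≤ ‖f n‖ := (f n).unit_le_opNorm y hy
    exact h1.trans (Finset.single_le_sum (f := fun n => ‖f n‖) (fun n _ => norm_nonneg _)
      (Finset.mem_univ n))
  have htb : TotallyBounded (Φ '' Metric.closedBall 0 1) :=
    (hK1.prod hK).totallyBounded.subset hsub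
  set η : ℝ := δ / (1 + ∑ n, (‖z n‖ + δ)) with hη
  have hden : 0 < 1 + ∑ n, (‖z n‖ + δ) := by
    have : 0 ≤ ∑ n, (‖z n‖ + δ) := Finset.sum_nonneg fun n _ => by positivity
    linarith
  have hη0 : 0 < η := by positivity
  obtain ⟨t, hts, htf, htc⟩ := totallyBounded_iff_subset.1 htb _ (Metric.dist_mem_uniformity hη0)
  have _ : Fintype t := htf.fintype
  have hch : ∀ j : t, ∃ y : Y, ‖y‖ ≤ 1 ∧ Φ y = j := by
    intro j
    obtain ⟨y, hy, hy2⟩ := hts j.2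
    exact ⟨y, mem_closedBall_zero_iff.1 hy, hy2⟩
  choose yy hy1 hy2 using hch
  obtain ⟨v, hv1, hv2⟩ := helly_fin (fun (j : t) n => f n (yy j)) (fun j => T (yy j)) z
    (fun n => ‖z n‖ + δ) (fun n => by linarith) (ε := ε + δ) (by linarith)
    (fun j => (h (yy j) (hy1 j)).trans_lt (by linarith))
  refine ⟨v, hv1, ?_⟩
  refine opNorm_le_unit (by linarith) fun y hy => ?_
  have hmem : Φ y ∈ ⋃ j ∈ t, {x | (x, j) ∈ {p : ((Fin N → 𝕜) × Y) × ((Fin N → 𝕜) × Y) |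
      dist p.1 p.2 < η}} := htc ⟨y, mem_closedBall_zero_iff.2 hy, rfl⟩
  simp only [Set.mem_iUnion] at hmem
  obtain ⟨j, hj, hdist⟩ := hmem
  have hd : dist (Φ y) (Φ (yy ⟨j, hj⟩)) < η := by
    rw [hy2 ⟨j, hj⟩]
    exact hdist
  rw [Prod.dist_eq, max_lt_iff] at hd
  obtain ⟨hd1, hd2⟩ := hd
  set y' := yy ⟨j, hj⟩ with hy'
  have hd1' : ∀ n, ‖f n y - f n y'‖ < η := by
    intro n
    rw [← dist_eq_norm]
    exact (dist_le_pi_dist (Φ y).1 (Φ y').1 n).trans_lt hd1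
  have hd2' : ‖T y - T y'‖ < η := by
    rw [← dist_eq_norm]
    exact hd2
  have h3 := hv2 ⟨j, hj⟩
  have h4 : (T - ∑ n, (f n).smulRight (v n)) y = (T y - T y') + (T y' - ∑ n, f n y' • v n) -
      ∑ n, (f n y - f n y') • v n := by
    rw [sub_apply, sum_apply]
    simp only [ContinuousLinearMap.smulRight_apply, sub_smul, Finset.sum_sub_distrib]
    abel
  rw [h4]
  have h5 : ‖∑ n, (f n y - f n y') • v n‖ ≤ η * ∑ n, (‖z n‖ + δ) := by
    refine (norm_sum_le _ _).trans ?_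
    rw [Finset.mul_sum]
    refine Finset.sum_le_sum fun n _ => ?_
    rw [norm_smul]
    exact mul_le_mul (hd1' n).le (hv1 n).le (norm_nonneg _) hη0.le
  have h6 : η * (1 + ∑ n, (‖z n‖ + δ)) = δ := by
    rw [hη]
    field_simp
  have h7 : ‖(T y - T y') + (T y' - ∑ n, f n y' • v n) - ∑ n, (f n y - f n y') • v n‖ ≤
      ‖T y - T y'‖ + ‖T y' - ∑ n, f n y' • v n‖ + ‖∑ n, (f n y - f n y') • v n‖ :=
    (norm_sub_le _ _).trans (add_le_add_left (norm_add_le _ _) _)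
  have h8 : ‖T y' - ∑ n, f n y' • v n‖ < ε + δ := h3
  rw [mul_add, mul_one] at h6
  linarith

lemma tail_bound {Y : Type*} [NormedAddCommGroup Y] [NormedSpace 𝕜 Y]
    {f : ℕ → (Y →L[𝕜] 𝕜)} {z : ℕ → ((Y →L[𝕜] 𝕜) →L[𝕜] 𝕜)}
    (hs : Summable fun n => ‖f n‖ * ‖z n‖) {y : Y} (hy : ‖y‖ ≤ 1) {a : 𝕜} (φ : Y →L[𝕜] 𝕜)
    (ha : HasSum (fun n => f n y * z n φ) a) (N : ℕ) :
    ‖a - ∑ n : Fin N, f n y * z n φ‖ ≤ (∑' k, ‖f (k + N)‖ * ‖z (k + N)‖) * ‖φ‖ := by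
  have h2 : HasSum (fun n => f (n + N) y * z (n + N) φ)
      (a - ∑ i ∈ Finset.range N, f i y * z i φ) := by
    rw [hasSum_nat_add_iff (f := fun n => f n y * z n φ) N, sub_add_cancel]
    exact ha
  have h3 : HasSum (fun n => ‖f (n + N)‖ * ‖z (n + N)‖ * ‖φ‖)
      ((∑' k, ‖f (k + N)‖ * ‖z (k + N)‖) * ‖φ‖) :=
    (((summable_nat_add_iff N).2 hs).hasSum).mul_right _
  have h4 := h2.norm_le_of_bounded h3 fun n => by
    rw [norm_mul, mul_assoc]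
    exact mul_le_mul ((f (n + N)).unit_le_opNorm y hy) ((z (n + N)).le_opNorm φ)
      (norm_nonneg _) (norm_nonneg _)
  rw [Finset.sum_range] at h4
  exact h4

/-- **Key theorem.** -/
theorem key {Y : Type*} [NormedAddCommGroup Y] [NormedSpace 𝕜 Y] [CompleteSpace Y] {C : ℝ}
    (hC : 0 ≤ C) (h : ∀ T : Y →L[𝕜] Y, IsCompactOperator T →
      ∃ (f : ℕ → (Y →L[𝕜] 𝕜)) (z : ℕ → ((Y →L[𝕜] 𝕜) →L[𝕜] 𝕜)),
        Summable (fun n => ‖f n‖ * ‖z n‖) ∧ ∑' n, ‖f n‖ * ‖z n‖ ≤ C * ‖T‖ ∧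
        ∀ (y : Y) (φ : Y →L[𝕜] 𝕜), HasSum (fun n => f n y * z n φ) (φ (T y)))
    (T : Y →L[𝕜] Y) (hT : IsCompactOperator T) : NucB (2 * (C + 1) * ‖T‖) T := by
  refine iterate (by linarith) ?_ T hT
  intro T hT ε hε
  by_cases hT0 : T = 0
  · refine ⟨0, isCompactOperator_zero, ?_, ?_⟩
    · rw [hT0]
      simpa using (NucB.zero : NucB 0 (0 : Y →L[𝕜] Y))
    · rw [hT0]
      simpa using hε.le
  have hTn : 0 < ‖T‖ := norm_pos_iff.2 hT0
  obtain ⟨f, z, hs, hle, hx⟩ := h T hT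
  have htail := tendsto_sum_nat_add (fun n => ‖f n‖ * ‖z n‖)
  have hev : ∀ᶠ N in Filter.atTop, ∑' k, ‖f (k + N)‖ * ‖z (k + N)‖ < ε / 2 :=
    htail.eventually_lt_const (by positivity)
  obtain ⟨N, hN⟩ := hev.exists
  have h1 : ∀ y, ‖y‖ ≤ 1 → ∀ φ : Y →L[𝕜] 𝕜,
      ‖φ (T y) - ∑ n : Fin N, f n y * z n φ‖ ≤ ε / 2 * ‖φ‖ := by
    intro y hy φ
    exact (tail_bound hs hy φ (hx y φ) N).trans
      (mul_le_mul_of_nonneg_right hN.le (norm_nonneg _))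
  set σ : ℝ := ∑ n : Fin N, ‖f n‖ with hσ
  have hσ0 : 0 ≤ σ := Finset.sum_nonneg fun n _ => norm_nonneg _
  set δ : ℝ := min (ε / 4) (‖T‖ / (σ + 1)) with hδ
  have hδ0 : 0 < δ := by
    rw [hδ]
    exact lt_min (by positivity) (by positivity)
  obtain ⟨v, hv1, hv2⟩ := approx_step hT (fun n : Fin N => f n) (fun n : Fin N => z n)
    (ε := ε / 2) (by positivity) hδ0 h1
  refine ⟨∑ n : Fin N, (f n).smulRight (v n), compact_sum _ _, ?_, ?_⟩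
  · refine (NucB.finite (fun n : Fin N => f n) v).mono ?_
    have h5 : ∑ n : Fin N, ‖f n‖ * ‖v n‖ ≤ ∑ n : Fin N, (‖f n‖ * ‖z n‖ + δ * ‖f n‖) := by
      refine Finset.sum_le_sum fun n _ => ?_
      have := mul_le_mul_of_nonneg_left (hv1 n).le (norm_nonneg (f n))
      linarith
    rw [Finset.sum_add_distrib, ← Finset.mul_sum] at h5
    have h6 : ∑ n : Fin N, ‖f n‖ * ‖z n‖ ≤ C * ‖T‖ := by
      refine le_trans ?_ hle
      rw [← Finset.sum_range (fun n => ‖f n‖ * ‖z n‖)]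
      exact hs.sum_le_tsum _ fun n _ => by positivity
    have h7 : δ * σ ≤ ‖T‖ := by
      have h8 : δ ≤ ‖T‖ / (σ + 1) := min_le_right _ _
      calc δ * σ ≤ ‖T‖ / (σ + 1) * σ := mul_le_mul_of_nonneg_right h8 hσ0
        _ = ‖T‖ * (σ / (σ + 1)) := by ring
        _ ≤ ‖T‖ * 1 := by
            refine mul_le_mul_of_nonneg_left ?_ hTn.le
            rw [div_le_one (by linarith)]
            linarith
        _ = ‖T‖ := mul_one _
    linarith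
  · have h9 : δ ≤ ε / 4 := min_le_left _ _
    linarith

end Pool.Agent.H57.KN
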