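import Mathlib

/-!
Nuclear representations of bounded size: countable sums, and the iteration which turns
approximate representations into exact ones.
-/

namespace Pool.Agent.H57.KN

variable {𝕜 : Type*} [RCLike 𝕜]
variable {E : Type*} [NormedAddCommGroup E] [NormedSpace 𝕜 E]
variable {F : Type*} [NormedAddCommGroup F] [NormedSpace 𝕜 F]

instance bidualSMul : NormSMulClass 𝕜 ((E →L[𝕜] 𝕜) →L[𝕜] 𝕜) :=
  @NormedSpace.toNormSMulClass 𝕜 ((E →L[𝕜] 𝕜) →L[𝕜] 𝕜) _ _ ContinuousLinearMap.toNormedSpace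

/-- nuclear representation of size at most `M` -/
def NucB (M : ℝ) (T : E →L[𝕜] F) : Prop :=
  ∃ (f : ℕ → (E →L[𝕜] 𝕜)) (y : ℕ → F), Summable (fun n => ‖f n‖ * ‖y n‖) ∧
    ∑' n, ‖f n‖ * ‖y n‖ ≤ M ∧ ∀ x : E, HasSum (fun n => (f n x) • y n) (T x)

lemma NucB.mono {M N : ℝ} {T : E →L[𝕜] F} (h : NucB M T) (hMN : M ≤ N) : NucB N T := by
  obtain ⟨f, y, h1, h2, h3⟩ := h
  exact ⟨f, y, h1, h2.trans hMN, h3⟩

lemma NucB.zero : NucB 0 (0 : E →L[𝕜] F) := by
  refine ⟨fun _ => 0, fun _ => 0, ?_, ?_, ?_⟩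
  · simpa using (summable_zero : Summable fun _ : ℕ => (0 : ℝ))
  · simp
  · intro x
    simpa using (hasSum_zero : HasSum (fun _ : ℕ => (0 : F)) 0)

lemma NucB.smul {M : ℝ} {T : E →L[𝕜] F} (h : NucB M T) (c : 𝕜) : NucB (‖c‖ * M) (c • T) := by
  obtain ⟨f, y, h1, h2, h3⟩ := h
  have hfun : (fun n => ‖f n‖ * ‖c • y n‖) = fun n => ‖c‖ * (‖f n‖ * ‖y n‖) := by
    funext n
    rw [norm_smul]
    ring
  refine ⟨f, fun n => c • y n, ?_, ?_, ?_⟩
  · rw [hfun]
    exact h1.mul_left _
  · rw [hfun, tsum_mul_left]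
    exact mul_le_mul_of_nonneg_left h2 (norm_nonneg _)
  · intro x
    have := (h3 x).const_smul c
    have he : (fun n => (f n x) • c • y n) = fun n => c • (f n x) • y n := by
      funext n
      rw [smul_comm]
    rw [he]
    exact this

lemma NucB.finite {N : ℕ} (f : Fin N → (E →L[𝕜] 𝕜)) (y : Fin N → F) :
    NucB (∑ n, ‖f n‖ * ‖y n‖) (∑ n, (f n).smulRight (y n)) := by
  classical
  let f' : ℕ → (E →L[𝕜] 𝕜) := fun n => if h : n < N then f ⟨n, h⟩ else 0
  let y' : ℕ → F := fun n => if h : n < N then y ⟨n, h⟩ else 0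
  have hf : ∀ i : Fin N, f' i = f i := fun i => by simp [f']
  have hy : ∀ i : Fin N, y' i = y i := fun i => by simp [y']
  have hz : ∀ n, n ∉ Finset.range N → y' n = 0 := by
    intro n hn
    have : ¬ n < N := by simpa using hn
    simp [y', this]
  have h1 : HasSum (fun n => ‖f' n‖ * ‖y' n‖) (∑ n ∈ Finset.range N, ‖f' n‖ * ‖y' n‖) := by
    apply hasSum_sum_of_ne_finset_zero
    intro n hn
    rw [hz n hn]
    simp
  have h2 : ∑ n ∈ Finset.range N, ‖f' n‖ * ‖y' n‖ = ∑ n, ‖f n‖ * ‖y n‖ := by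
    rw [Finset.sum_range]
    exact Finset.sum_congr rfl fun i _ => by rw [hf, hy]
  refine ⟨f', y', h1.summable, ?_, ?_⟩
  · rw [h1.tsum_eq, h2]
  · intro x
    have h3 : HasSum (fun n => (f' n x) • y' n) (∑ n ∈ Finset.range N, (f' n x) • y' n) := by
      apply hasSum_sum_of_ne_finset_zero
      intro n hn
      rw [hz n hn]
      simp
    have h4 : ∑ n ∈ Finset.range N, (f' n x) • y' n = (∑ n, (f n).smulRight (y n)) x := by
      rw [Finset.sum_range, ContinuousLinearMap.sum_apply]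
      exact Finset.sum_congr rfl fun i _ => by
        rw [hf, hy]
        rfl
    rw [← h4]
    exact h3

lemma NucB.tsum [CompleteSpace F] {A : ℕ → (E →L[𝕜] F)} {M : ℕ → ℝ}
    (hA : ∀ k, NucB (M k) (A k)) (hM : Summable M) {T : E →L[𝕜] F}
    (hT : ∀ x, HasSum (fun k => A k x) (T x)) : NucB (∑' k, M k) T := by
  choose f y hs hle hx using hA
  let g : ℕ × ℕ → ℝ := fun p => ‖f p.1 p.2‖ * ‖y p.1 p.2‖
  have hg0 : ∀ p, 0 ≤ g p := fun p => by positivity
  have hk0 : ∀ k, 0 ≤ ∑' n, g (k, n) := fun k => tsum_nonneg fun n => hg0 _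
  have hk1 : Summable fun k => ∑' n, g (k, n) :=
    Summable.of_nonneg_of_le hk0 (fun k => hle k) hM
  have hg : Summable g := (summable_prod_of_nonneg hg0).2 ⟨fun k => hs k, hk1⟩
  have hgt : ∑' p, g p ≤ ∑' k, M k := by
    rw [hg.tsum_prod]
    exact hk1.tsum_le_tsum (fun k => hle k) hM
  let e : ℕ ≃ ℕ × ℕ := Nat.pairEquiv.symm
  refine ⟨fun n => f (e n).1 (e n).2, fun n => y (e n).1 (e n).2, ?_, ?_, ?_⟩
  · exact (e.summable_iff (f := g)).2 hg
  · have := e.tsum_eq g
    refine le_trans (le_of_eq ?_) hgt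
    exact this
  · intro x
    let h : ℕ × ℕ → F := fun p => (f p.1 p.2 x) • y p.1 p.2
    have hh : Summable h := by
      refine Summable.of_norm_bounded (hg.mul_left ‖x‖) fun p => ?_
      show ‖(f p.1 p.2 x) • y p.1 p.2‖ ≤ ‖x‖ * (‖f p.1 p.2‖ * ‖y p.1 p.2‖)
      rw [norm_smul]
      have := (f p.1 p.2).le_opNorm x
      calc ‖f p.1 p.2 x‖ * ‖y p.1 p.2‖ ≤ (‖f p.1 p.2‖ * ‖x‖) * ‖y p.1 p.2‖ :=
            mul_le_mul_of_nonneg_right this (norm_nonneg _)
        _ = _ := by ring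
    have h1 : HasSum (fun k => A k x) (∑' p, h p) :=
      hh.hasSum.prod_fiberwise fun k => hx k x
    have h2 : ∑' p, h p = T x := h1.unique (hT x)
    have h3 : HasSum h (T x) := h2 ▸ hh.hasSum
    exact (e.hasSum_iff (f := h)).2 h3

lemma NucB.sub [CompleteSpace F] {M N : ℝ} {S T : E →L[𝕜] F} (hS : NucB M S)
    (hT : NucB N T) : NucB (M + N) (S - T) := by
  have hT' : NucB N (-T) := by
    have := hT.smul (-1 : 𝕜)
    simpa using this
  let A : ℕ → (E →L[𝕜] F) := fun k => if k = 0 then S else if k = 1 then -T else 0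
  let m : ℕ → ℝ := fun k => if k = 0 then M else if k = 1 then N else 0
  have hA : ∀ k, NucB (m k) (A k) := by
    intro k
    rcases k with _ | _ | k
    · simpa [A, m] using hS
    · simpa [A, m] using hT'
    · simpa [A, m] using (NucB.zero : NucB 0 (0 : E →L[𝕜] F))
  have hm : HasSum m (M + N) := by
    have : HasSum m (∑ k ∈ Finset.range 2, m k) := by
      apply hasSum_sum_of_ne_finset_zero
      intro k hk
      have : 2 ≤ k := by
        have h0 := Finset.mem_range.not.1 hk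
        omega
      rcases k with _ | _ | k
      · omega
      · omega
      · simp [m]
    simpa [Finset.sum_range_succ, m] using this
  have := NucB.tsum hA hm.summable (T := S - T) ?_
  · rwa [hm.tsum_eq] at this
  · intro x
    have h1 : HasSum (fun k => A k x) (∑ k ∈ Finset.range 2, A k x) := by
      apply hasSum_sum_of_ne_finset_zero
      intro k hk
      have : 2 ≤ k := by
        have h0 := Finset.mem_range.not.1 hk
        omega
      rcases k with _ | _ | k
      · omega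
      · omega
      · simp [A]
    simpa [Finset.sum_range_succ, A, sub_eq_add_neg] using h1

/-- approximate representations give exact ones -/
theorem iterate {Y : Type*} [NormedAddCommGroup Y] [NormedSpace 𝕜 Y] [CompleteSpace Y]
    {C : ℝ} (hC : 0 ≤ C)
    (h : ∀ T : Y →L[𝕜] Y, IsCompactOperator T → ∀ ε : ℝ, 0 < ε →
      ∃ A : Y →L[𝕜] Y, IsCompactOperator A ∧ NucB (C * ‖T‖) A ∧ ‖T - A‖ ≤ ε)
    (T : Y →L[𝕜] Y) (hT : IsCompactOperator T) : NucB (2 * C * ‖T‖) T := by
  by_cases hT0 : T = 0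
  · subst hT0
    simpa using (NucB.zero : NucB 0 (0 : Y →L[𝕜] Y))
  have hr : 0 < ‖T‖ := norm_pos_iff.2 hT0
  set r := ‖T‖ with hrdef
  have hpos : ∀ k : ℕ, 0 < r / 2 ^ (k + 1) := fun k => by positivity
  choose A hAc hAn hAd using h
  let S : ℕ → {S : Y →L[𝕜] Y // IsCompactOperator S} := fun k =>
    Nat.rec ⟨T, hT⟩ (fun k S => ⟨S.1 - A S.1 S.2 (r / 2 ^ (k + 1)) (hpos k),
      S.2.sub (hAc S.1 S.2 _ (hpos k))⟩) k
  let B : ℕ → (Y →L[𝕜] Y) := fun k => A (S k).1 (S k).2 (r / 2 ^ (k + 1)) (hpos k)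
  have hS0 : (S 0).1 = T := rfl
  have hS1 : ∀ k, (S (k + 1)).1 = (S k).1 - B k := fun k => rfl
  have hSn : ∀ k, ‖(S k).1‖ ≤ r / 2 ^ k := by
    intro k
    rcases k with _ | k
    · simp [hS0, hrdef]
    · rw [hS1]
      exact hAd _ _ _ _
  have hBn : ∀ k, NucB (C * (r / 2 ^ k)) (B k) := fun k =>
    (hAn (S k).1 (S k).2 _ (hpos k)).mono (mul_le_mul_of_nonneg_left (hSn k) hC)
  have hg : HasSum (fun k : ℕ => r / 2 ^ k) (r * 2) := by
    have := hasSum_geometric_two.mul_left r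
    refine this.congr_fun ?_ |> fun h => h
    intro k
    rw [one_div, inv_pow]
    rfl
  have hM : HasSum (fun k : ℕ => C * (r / 2 ^ k)) (C * (r * 2)) := hg.mul_left C
  have hBnorm : ∀ k, ‖B k‖ ≤ 2 * (r / 2 ^ k) := by
    intro k
    have h1 : B k = (S k).1 - (S (k + 1)).1 := by rw [hS1]; abel
    rw [h1]
    refine (norm_sub_le _ _).trans ?_
    have h2 := hSn k
    have h3 := hSn (k + 1)
    have h4 : r / 2 ^ (k + 1) ≤ r / 2 ^ k := by
      apply div_le_div_of_nonneg_left hr.le (by positivity)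
      exact pow_le_pow_right₀ one_le_two (Nat.le_succ k)
    linarith
  have hpart : ∀ n, ∑ k ∈ Finset.range n, B k = T - (S n).1 := by
    intro n
    induction n with
    | zero => simp [hS0]
    | succ n ih =>
      rw [Finset.sum_range_succ, ih, hS1]
      abel
  have hsum : ∀ x, HasSum (fun k => B k x) (T x) := by
    intro x
    have hsn : Summable fun k => ‖B k x‖ := by
      refine Summable.of_nonneg_of_le (fun k => norm_nonneg _)
        (fun k => (B k).le_of_opNorm_le (hBnorm k) x) ?_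
      exact (hg.summable.mul_left 2).mul_right ‖x‖
    rw [hasSum_iff_tendsto_nat_of_summable_norm hsn]
    have h1 : ∀ n, ∑ k ∈ Finset.range n, B k x = T x - (S n).1 x := by
      intro n
      have := congrArg (fun (L : Y →L[𝕜] Y) => L x) (hpart n)
      simpa [ContinuousLinearMap.sum_apply] using this
    simp_rw [h1]
    have h2 : Filter.Tendsto (fun n => (S n).1 x) Filter.atTop (nhds 0) := by
      rw [tendsto_zero_iff_norm_tendsto_zero]
      have h3 : Filter.Tendsto (fun n : ℕ => r / 2 ^ n * ‖x‖) Filter.atTop (nhds (0 * ‖x‖)) :=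
        hg.summable.tendsto_atTop_zero.mul_const _
      rw [zero_mul] at h3
      exact squeeze_zero (fun n => norm_nonneg _)
        (fun n => ((S n).1).le_of_opNorm_le (hSn n) x) h3
    simpa using tendsto_const_nhds.sub h2
  have := NucB.tsum hBn hM.summable hsum
  rw [hM.tsum_eq] at this
  refine this.mono (le_of_eq ?_)
  ring

end Pool.Agent.H57.KN
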