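import Pool.Agent.H57.KN.A

/-!
The Helly lemma: finitely many inequalities which hold for elements of the bidual hold for
suitable elements of the space.
-/

namespace Pool.Agent.H57.KN

variable {𝕜 : Type*} [RCLike 𝕜]

/-- abstract form -/
theorem helly {V P : Type*} [NormedAddCommGroup V] [NormedSpace 𝕜 V] [NormedAddCommGroup P]
    [NormedSpace 𝕜 P] (Λ : V →L[𝕜] P) (p0 : P) (ζ : (V →L[𝕜] 𝕜) → 𝕜) (hζ : ζ 0 = 0)
    {θ : ℝ} (hθ : θ < 1) (h : ∀ f : P →L[𝕜] 𝕜, ‖f p0 + ζ (f.comp Λ)‖ ≤ θ * ‖f‖) :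
    ∃ v, ‖p0 + Λ v‖ < 1 := by
  by_contra hcon
  push Not at hcon
  let _ : NormedSpace ℝ P := NormedSpace.restrictScalars ℝ 𝕜 P
  have _ : IsScalarTower ℝ 𝕜 P := RestrictScalars.isScalarTower ℝ 𝕜 P
  let _ : NormedSpace ℝ V := NormedSpace.restrictScalars ℝ 𝕜 V
  have _ : IsScalarTower ℝ 𝕜 V := RestrictScalars.isScalarTower ℝ 𝕜 V
  have hconv : Convex ℝ (Set.range fun v => p0 + Λ v) := by
    rintro _ ⟨v, rfl⟩ _ ⟨w, rfl⟩ s t hs ht hst
    refine ⟨s • v + t • w, ?_⟩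
    have h1 : Λ (s • v + t • w) = s • Λ v + t • Λ w := by
      rw [map_add]
      have e1 : Λ (s • v) = s • Λ v := by
        have := Λ.map_smul ((s : ℝ) : 𝕜) v
        rwa [← algebraMap_smul 𝕜 s v, ← algebraMap_smul 𝕜 s (Λ v)]
      have e2 : Λ (t • w) = t • Λ w := by
        have := Λ.map_smul ((t : ℝ) : 𝕜) w
        rwa [← algebraMap_smul 𝕜 t w, ← algebraMap_smul 𝕜 t (Λ w)]
      rw [e1, e2]
    show p0 + Λ (s • v + t • w) = s • (p0 + Λ v) + t • (p0 + Λ w)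
    rw [h1, smul_add, smul_add]
    have h2 : p0 = s • p0 + t • p0 := by rw [← add_smul, hst, one_smul]
    nth_rewrite 1 [h2]
    abel
  have hdisj : Disjoint (Metric.ball (0 : P) 1) (Set.range fun v => p0 + Λ v) := by
    rw [Set.disjoint_left]
    rintro _ hx ⟨v, rfl⟩
    rw [mem_ball_zero_iff] at hx
    exact absurd hx (not_lt.2 (hcon v))
  obtain ⟨f, u, hf1, hf2⟩ := RCLike.geometric_hahn_banach_open (𝕜 := 𝕜)
    (convex_ball (0 : P) 1) Metric.isOpen_ball hconv hdisj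
  have hu : 0 < u := by
    have := hf1 0 (Metric.mem_ball_self one_pos)
    simpa using this
  -- the norm
  have hfn : ‖f‖ ≤ u := by
    by_contra hlt
    push Not at hlt
    obtain ⟨x, hx1, hx2⟩ := f.exists_lt_apply_of_lt_opNorm hlt
    obtain ⟨c, hc1, hc2⟩ := RCLike.exists_norm_eq_mul_self (f x)
    have h1 := hf1 (c • x) (by rw [mem_ball_zero_iff, norm_smul, hc1, one_mul]; exact hx1)
    rw [map_smul, smul_eq_mul, ← hc2, RCLike.ofReal_re] at h1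
    linarith
  -- vanishing on the range
  have hL : f.comp Λ = 0 := by
    ext v
    by_contra hne
    have hne' : f (Λ v) ≠ 0 := hne
    have hpos : 0 < ‖f (Λ v)‖ := norm_pos_iff.2 hne'
    obtain ⟨c, hc1, hc2⟩ := RCLike.exists_norm_eq_mul_self (f (Λ v))
    set s : ℝ := (RCLike.re (f p0) - u + 1) / ‖f (Λ v)‖ with hs
    have h1 := hf2 (p0 + Λ (-(((s : ℝ) : 𝕜) * c) • v)) ⟨_, rfl⟩
    have h2 : f (p0 + Λ (-(((s : ℝ) : 𝕜) * c) • v)) = f p0 - ((s * ‖f (Λ v)‖ : ℝ) : 𝕜) := by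
      rw [map_add, map_smul, map_smul, smul_eq_mul]
      push_cast
      linear_combination ((s : ℝ) : 𝕜) * hc2
    rw [h2, map_sub, RCLike.ofReal_re] at h1
    have h3 : s * ‖f (Λ v)‖ = RCLike.re (f p0) - u + 1 := by
      rw [hs]
      field_simp
    rw [h3] at h1
    linarith
  have h0 := h f
  rw [hL, hζ, add_zero] at h0
  have h1 := hf2 (p0 + Λ 0) ⟨0, rfl⟩
  rw [map_zero, add_zero] at h1
  have h2 : u ≤ ‖f p0‖ := h1.trans ((le_abs_self _).trans (RCLike.abs_re_le_norm _))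
  have h3 : 0 ≤ ‖f‖ := norm_nonneg _
  rcases le_or_gt 0 θ with h4 | h4
  · nlinarith
  · nlinarith

/-- the norm of a functional on a finite power -/
theorem sum_norm_le {ι : Type*} [Fintype ι] [DecidableEq ι] {Y : Type*} [NormedAddCommGroup Y]
    [NormedSpace 𝕜 Y] (f : (ι → Y) →L[𝕜] 𝕜) :
    ∑ i, ‖f.comp (ContinuousLinearMap.single 𝕜 (fun _ : ι => Y) i)‖ ≤ ‖f‖ := by
  refine le_of_forall_pos_le_add fun δ hδ => ?_
  set η : ℝ := δ / (Fintype.card ι + 1) with hη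
  have hη0 : 0 < η := by positivity
  let g : ι → (Y →L[𝕜] 𝕜) := fun i => f.comp (ContinuousLinearMap.single 𝕜 (fun _ : ι => Y) i)
  have hx : ∀ i, ∃ x : Y, ‖x‖ < 1 ∧ ‖g i‖ - η < ‖g i x‖ := fun i =>
    (g i).exists_lt_apply_of_lt_opNorm (by linarith)
  choose x hx1 hx2 using hx
  have hc : ∀ i, ∃ c : 𝕜, ‖c‖ = 1 ∧ ((‖g i (x i)‖ : ℝ) : 𝕜) = c * g i (x i) := fun i =>
    RCLike.exists_norm_eq_mul_self (g i (x i))
  choose c hc1 hc2 using hc
  let p : ι → Y := fun i => c i • x i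
  have hp : ‖p‖ ≤ 1 := by
    rw [pi_norm_le_iff_of_nonneg zero_le_one]
    intro i
    show ‖c i • x i‖ ≤ 1
    rw [norm_smul, hc1, one_mul]
    exact (hx1 i).le
  have hfp : f p = ((∑ i, ‖g i (x i)‖ : ℝ) : 𝕜) := by
    have h1 : p = ∑ i, Pi.single i (p i) := (Finset.univ_sum_single p).symm
    rw [h1, map_sum]
    push_cast
    refine Finset.sum_congr rfl fun i _ => ?_
    have : f (Pi.single i (p i)) = g i (c i • x i) := rfl
    rw [this, map_smul, smul_eq_mul]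
    exact (hc2 i).symm
  have h2 : ∑ i, ‖g i (x i)‖ ≤ ‖f‖ := by
    have h3 := f.le_opNorm p
    rw [hfp, RCLike.norm_ofReal, abs_of_nonneg (Finset.sum_nonneg fun i _ => norm_nonneg _)] at h3
    exact h3.trans (mul_le_of_le_one_right (norm_nonneg _) hp)
  have h4 : ∑ i, ‖g i‖ ≤ ∑ i, (‖g i (x i)‖ + η) :=
    Finset.sum_le_sum fun i _ => by linarith [hx2 i]
  rw [Finset.sum_add_distrib, Finset.sum_const, Finset.card_univ, nsmul_eq_mul] at h4
  have h5 : (Fintype.card ι : ℝ) * η ≤ δ := by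
    rw [hη, ← mul_div_assoc, div_le_iff₀ (by positivity)]
    nlinarith
  show ∑ i, ‖g i‖ ≤ ‖f‖ + δ
  linarith

/-- Helly's lemma for elements of the bidual -/
theorem helly_fin {Y : Type*} [NormedAddCommGroup Y] [NormedSpace 𝕜 Y] {N : ℕ} {L : Type*}
    [Fintype L] (a : L → Fin N → 𝕜) (w : L → Y) (z : Fin N → ((Y →L[𝕜] 𝕜) →L[𝕜] 𝕜))
    (R : Fin N → ℝ) (hR : ∀ n, ‖z n‖ < R n) {ε : ℝ} (hε : 0 < ε)
    (h : ∀ j, ‖NormedSpace.inclusionInDoubleDual 𝕜 Y (w j) - ∑ n, a j n • z n‖ < ε) :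
    ∃ v : Fin N → Y, (∀ n, ‖v n‖ < R n) ∧ ∀ j, ‖w j - ∑ n, a j n • v n‖ < ε := by
  classical
  have hR0 : ∀ n, 0 < R n := fun n => lt_of_le_of_lt (norm_nonneg (z n)) (hR n)
  let ι := Fin N ⊕ L
  let Λ : (Fin N → Y) →L[𝕜] (ι → Y) := ContinuousLinearMap.pi (Sum.elim
    (fun n => ((R n : ℝ) : 𝕜)⁻¹ • (ContinuousLinearMap.proj n : (Fin N → Y) →L[𝕜] Y))
    (fun j => (-((ε : ℝ) : 𝕜)⁻¹) •
      ∑ n, a j n • (ContinuousLinearMap.proj n : (Fin N → Y) →L[𝕜] Y)))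
  let p0 : ι → Y := Sum.elim (fun _ => 0) (fun j => ((ε : ℝ) : 𝕜)⁻¹ • w j)
  let ζ : ((Fin N → Y) →L[𝕜] 𝕜) → 𝕜 := fun g =>
    ∑ n, z n (g.comp (ContinuousLinearMap.single 𝕜 (fun _ : Fin N => Y) n))
  let q : ι → ((Y →L[𝕜] 𝕜) →L[𝕜] 𝕜) := Sum.elim (fun n => ((R n : ℝ) : 𝕜)⁻¹ • z n)
    (fun j => ((ε : ℝ) : 𝕜)⁻¹ •
      (NormedSpace.inclusionInDoubleDual 𝕜 Y (w j) - ∑ n, a j n • z n))
  have hq : ‖q‖ < 1 := by
    rw [pi_norm_lt_iff one_pos]
    rintro (n | j)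
    · show ‖((R n : ℝ) : 𝕜)⁻¹ • z n‖ < 1
      rw [norm_smul, norm_inv, RCLike.norm_ofReal, abs_of_pos (hR0 n), inv_mul_lt_iff₀ (hR0 n),
        mul_one]
      exact hR n
    · show ‖((ε : ℝ) : 𝕜)⁻¹ •
        (NormedSpace.inclusionInDoubleDual 𝕜 Y (w j) - ∑ n, a j n • z n)‖ < 1
      rw [norm_smul, norm_inv, RCLike.norm_ofReal, abs_of_pos hε, inv_mul_lt_iff₀ hε, mul_one]
      exact h j
  have hζ : ζ 0 = 0 := by simp [ζ]
  have hkey : ∀ f : (ι → Y) →L[𝕜] 𝕜, f p0 + ζ (f.comp Λ) =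
      ∑ i, q i (f.comp (ContinuousLinearMap.single 𝕜 (fun _ : ι => Y) i)) := by
    intro f
    let g : ι → (Y →L[𝕜] 𝕜) := fun i =>
      f.comp (ContinuousLinearMap.single 𝕜 (fun _ : ι => Y) i)
    have hf : ∀ p : ι → Y, f p = ∑ i, g i (p i) := by
      intro p
      conv_lhs => rw [← Finset.univ_sum_single p]
      rw [map_sum]
      rfl
    have h1 : ∀ n, (f.comp Λ).comp (ContinuousLinearMap.single 𝕜 (fun _ : Fin N => Y) n) =
        ((R n : ℝ) : 𝕜)⁻¹ • g (Sum.inl n) - ∑ j, (((ε : ℝ) : 𝕜)⁻¹ * a j n) • g (Sum.inr j) := by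
      intro n
      ext y
      show f (Λ (Pi.single n y)) = _
      rw [hf, Fintype.sum_sum_type]
      have h2 : ∀ m, Λ (Pi.single n y) (Sum.inl m) =
          ((R m : ℝ) : 𝕜)⁻¹ • (Pi.single n y : Fin N → Y) m := fun m => rfl
      have h3 : ∀ j, Λ (Pi.single n y) (Sum.inr j) = (-(((ε : ℝ) : 𝕜)⁻¹ * a j n)) • y := by
        intro j
        show (-((ε : ℝ) : 𝕜)⁻¹) • (∑ m, a j m •
          (ContinuousLinearMap.proj m : (Fin N → Y) →L[𝕜] Y)) (Pi.single n y) = _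
        rw [sum_apply, Finset.sum_eq_single n]
        · show (-((ε : ℝ) : 𝕜)⁻¹) • a j n • (Pi.single n y : Fin N → Y) n = _
          rw [Pi.single_eq_same, smul_smul]
          congr 1
          ring
        · intro m _ hm
          show a j m • (Pi.single n y : Fin N → Y) m = 0
          rw [Pi.single_eq_of_ne hm, smul_zero]
        · intro hn
          exact absurd (Finset.mem_univ n) hn
      have h4 : ∑ m, g (Sum.inl m) (Λ (Pi.single n y) (Sum.inl m)) =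
          ((R n : ℝ) : 𝕜)⁻¹ * g (Sum.inl n) y := by
        rw [Finset.sum_eq_single n]
        · rw [h2, Pi.single_eq_same, map_smul, smul_eq_mul]
        · intro m _ hm
          rw [h2, Pi.single_eq_of_ne hm, smul_zero, map_zero]
        · intro hn
          exact absurd (Finset.mem_univ n) hn
      rw [h4, sub_apply, smul_apply, sum_apply, smul_eq_mul, sub_eq_add_neg,
        ← Finset.sum_neg_distrib]
      congr 1
      refine Finset.sum_congr rfl fun j _ => ?_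
      rw [h3, map_smul, smul_eq_mul, smul_apply, smul_eq_mul, neg_mul]
    have h5 : f p0 = ∑ j, ((ε : ℝ) : 𝕜)⁻¹ * g (Sum.inr j) (w j) := by
      rw [hf, Fintype.sum_sum_type]
      have : ∀ m, g (Sum.inl m) (p0 (Sum.inl m)) = 0 := fun m => by
        show g (Sum.inl m) 0 = 0
        rw [map_zero]
      simp only [this, Finset.sum_const_zero, zero_add]
      refine Finset.sum_congr rfl fun j _ => ?_
      show g (Sum.inr j) (((ε : ℝ) : 𝕜)⁻¹ • w j) = _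
      rw [map_smul, smul_eq_mul]
    have h6 : ζ (f.comp Λ) = ∑ n, (((R n : ℝ) : 𝕜)⁻¹ * z n (g (Sum.inl n)) -
        ∑ j, (((ε : ℝ) : 𝕜)⁻¹ * a j n) * z n (g (Sum.inr j))) := by
      show ∑ n, z n ((f.comp Λ).comp _) = _
      refine Finset.sum_congr rfl fun n _ => ?_
      rw [h1 n, map_sub, map_smul, map_sum, smul_eq_mul]
      simp only [map_smul, smul_eq_mul]
    rw [h5, h6, Fintype.sum_sum_type, Finset.sum_sub_distrib]
    have h7 : ∀ n, q (Sum.inl n) (g (Sum.inl n)) = ((R n : ℝ) : 𝕜)⁻¹ * z n (g (Sum.inl n)) :=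
      fun n => rfl
    have h8 : ∀ j, q (Sum.inr j) (g (Sum.inr j)) = ((ε : ℝ) : 𝕜)⁻¹ * g (Sum.inr j) (w j) -
        ∑ n, (((ε : ℝ) : 𝕜)⁻¹ * a j n) * z n (g (Sum.inr j)) := by
      intro j
      show ((ε : ℝ) : 𝕜)⁻¹ • ((NormedSpace.inclusionInDoubleDual 𝕜 Y (w j) -
        ∑ n, a j n • z n) (g (Sum.inr j))) = _
      rw [sub_apply, sum_apply, smul_eq_mul, mul_sub, Finset.mul_sum]
      congr 1
      refine Finset.sum_congr rfl fun n _ => ?_
      rw [smul_apply, smul_eq_mul, mul_assoc]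
    show _ = ∑ n, q (Sum.inl n) (g (Sum.inl n)) + ∑ j, q (Sum.inr j) (g (Sum.inr j))
    simp only [h7, h8, Finset.sum_sub_distrib]
    rw [Finset.sum_comm (f := fun n j => (((ε : ℝ) : 𝕜)⁻¹ * a j n) * z n (g (Sum.inr j)))]
    ring
  obtain ⟨v, hv⟩ := helly Λ p0 ζ hζ hq (fun f => by
    rw [hkey f]
    calc ‖∑ i, q i (f.comp (ContinuousLinearMap.single 𝕜 (fun _ : ι => Y) i))‖
        ≤ ∑ i, ‖q i (f.comp (ContinuousLinearMap.single 𝕜 (fun _ : ι => Y) i))‖ :=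
          norm_sum_le _ _
      _ ≤ ∑ i, ‖q‖ * ‖f.comp (ContinuousLinearMap.single 𝕜 (fun _ : ι => Y) i)‖ := by
          refine Finset.sum_le_sum fun i _ => ?_
          exact ((q i).le_opNorm _).trans
            (mul_le_mul_of_nonneg_right (norm_le_pi_norm q i) (norm_nonneg _))
      _ = ‖q‖ * ∑ i, ‖f.comp (ContinuousLinearMap.single 𝕜 (fun _ : ι => Y) i)‖ := by
          rw [Finset.mul_sum]
      _ ≤ ‖q‖ * ‖f‖ := mul_le_mul_of_nonneg_left (sum_norm_le f) (norm_nonneg _))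
  rw [pi_norm_lt_iff one_pos] at hv
  refine ⟨v, fun n => ?_, fun j => ?_⟩
  · have h1 := hv (Sum.inl n)
    have h2 : (p0 + Λ v) (Sum.inl n) = ((R n : ℝ) : 𝕜)⁻¹ • v n := by
      show (0 : Y) + ((R n : ℝ) : 𝕜)⁻¹ • v n = _
      rw [zero_add]
    rw [h2, norm_smul, norm_inv, RCLike.norm_ofReal, abs_of_pos (hR0 n),
      inv_mul_lt_iff₀ (hR0 n), mul_one] at h1
    exact h1
  · have h1 := hv (Sum.inr j)
    have h2 : (p0 + Λ v) (Sum.inr j) = ((ε : ℝ) : 𝕜)⁻¹ • (w j - ∑ n, a j n • v n) := by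
      show ((ε : ℝ) : 𝕜)⁻¹ • w j + (-((ε : ℝ) : 𝕜)⁻¹) • (∑ n, a j n •
        (ContinuousLinearMap.proj n : (Fin N → Y) →L[𝕜] Y)) v = _
      rw [sum_apply, smul_sub, neg_smul, sub_eq_add_neg]
      rfl
    rw [h2, norm_smul, norm_inv, RCLike.norm_ofReal, abs_of_pos hε, inv_mul_lt_iff₀ hε,
      mul_one] at h1
    exact h1

end Pool.Agent.H57.KN
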