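import Pool.Agent.H57.KN.C

/-!
The uniform constant (Baire) and the passage to subspaces with an extension operator.
-/

namespace Pool.Agent.H57.KN

variable {𝕜 : Type*} [RCLike 𝕜]

/-- uniform constant -/
theorem uniform {X : Type*} [NormedAddCommGroup X] [NormedSpace 𝕜 X] [CompleteSpace X]
    (hnuc : ∀ T : X →L[𝕜] X, IsCompactOperator T → ∃ M : ℝ, NucB M T) :
    ∃ C : ℝ, 0 ≤ C ∧ ∀ T : X →L[𝕜] X, IsCompactOperator T → NucB (C * ‖T‖) T := by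
  let K : Submodule 𝕜 (X →L[𝕜] X) :=
    { carrier := {T | IsCompactOperator T}
      add_mem' := fun ha hb => ha.add hb
      zero_mem' := isCompactOperator_zero
      smul_mem' := fun c T hT => hT.smul c }
  have hKc : IsClosed (K : Set (X →L[𝕜] X)) := isClosed_setOfPred_isCompactOperator
  have _ : CompleteSpace K := hKc.completeSpace_coe
  let B : ℕ → Set K := fun k => {T | NucB (k : ℝ) (T : X →L[𝕜] X)}
  have hAu : ⋃ k, closure (B k) = Set.univ := by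
    rw [Set.eq_univ_iff_forall]
    rintro ⟨T, hT⟩
    obtain ⟨M, hM⟩ := hnuc T hT
    obtain ⟨k, hk⟩ := exists_nat_ge M
    exact Set.mem_iUnion.mpr ⟨k, subset_closure (hM.mono hk)⟩
  obtain ⟨k, T0, hT0⟩ := nonempty_interior_of_iUnion_of_closed (fun k => isClosed_closure) hAu
  rw [mem_interior_iff_mem_nhds, Metric.mem_nhds_iff] at hT0
  obtain ⟨r, hr, hball⟩ := hT0
  have hT0A : T0 ∈ closure (B k) := hball (Metric.mem_ball_self hr)
  have hC0 : (0 : ℝ) ≤ 4 * k / r := by positivity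
  refine ⟨2 * (4 * k / r), by positivity, ?_⟩
  refine iterate hC0 ?_
  intro T hT ε hε
  by_cases hz : T = 0
  · refine ⟨0, isCompactOperator_zero, ?_, ?_⟩
    · rw [hz]
      simpa using (NucB.zero : NucB 0 (0 : X →L[𝕜] X))
    · rw [hz]
      simpa using hε.le
  have hTn : 0 < ‖T‖ := norm_pos_iff.mpr hz
  set t : ℝ := r / (2 * ‖T‖) with htdef
  have ht : 0 < t := by positivity
  let T1 : K := T0 + ((t : ℝ) : 𝕜) • (⟨T, hT⟩ : K)
  have hT1 : T1 ∈ closure (B k) := by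
    apply hball
    rw [Metric.mem_ball, dist_eq_norm]
    have h1 : T1 - T0 = ((t : ℝ) : 𝕜) • (⟨T, hT⟩ : K) := by
      simp [T1]
    rw [h1]
    show ‖((t : ℝ) : 𝕜) • T‖ < r
    rw [norm_smul, RCLike.norm_ofReal, abs_of_pos ht]
    have : t * ‖T‖ = r / 2 := by
      rw [htdef]
      field_simp
    rw [this]
    linarith
  have hε1 : 0 < ε * t / 2 := by positivity
  obtain ⟨A1, hA1, hd1⟩ := Metric.mem_closure_iff.1 hT1 _ hε1
  obtain ⟨A2, hA2, hd2⟩ := Metric.mem_closure_iff.1 hT0A _ hε1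
  have hnt : ‖(((t : ℝ) : 𝕜))⁻¹‖ = t⁻¹ := by
    rw [norm_inv, RCLike.norm_ofReal, abs_of_pos ht]
  refine ⟨(((t : ℝ) : 𝕜))⁻¹ • ((A1 : X →L[𝕜] X) - (A2 : X →L[𝕜] X)), ?_, ?_, ?_⟩
  · exact (A1.2.sub A2.2).smul _
  · have h1 : NucB ((k : ℝ) + k) ((A1 : X →L[𝕜] X) - (A2 : X →L[𝕜] X)) := NucB.sub hA1 hA2
    have h2 := h1.smul (((t : ℝ) : 𝕜))⁻¹
    rw [hnt] at h2
    refine h2.mono (le_of_eq ?_)
    rw [htdef]
    field_simp
    ring
  · have h3 : T - (((t : ℝ) : 𝕜))⁻¹ • ((A1 : X →L[𝕜] X) - (A2 : X →L[𝕜] X)) =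
        (((t : ℝ) : 𝕜))⁻¹ • (((T1 : X →L[𝕜] X) - (A1 : X →L[𝕜] X)) -
          ((T0 : X →L[𝕜] X) - (A2 : X →L[𝕜] X))) := by
      have h4 : (T1 : X →L[𝕜] X) = (T0 : X →L[𝕜] X) + ((t : ℝ) : 𝕜) • T := rfl
      have h5 : (((t : ℝ) : 𝕜))⁻¹ • (((t : ℝ) : 𝕜) • T) = T := by
        rw [smul_smul, inv_mul_cancel₀, one_smul]
        exact RCLike.ofReal_ne_zero.2 ht.ne'
      rw [h4]
      have h6 : (T0 : X →L[𝕜] X) + ((t : ℝ) : 𝕜) • T - (A1 : X →L[𝕜] X) -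
          ((T0 : X →L[𝕜] X) - (A2 : X →L[𝕜] X)) =
          ((t : ℝ) : 𝕜) • T - ((A1 : X →L[𝕜] X) - (A2 : X →L[𝕜] X)) := by abel
      rw [h6, smul_sub (((t : ℝ) : 𝕜))⁻¹ (((t : ℝ) : 𝕜) • T)
        ((A1 : X →L[𝕜] X) - (A2 : X →L[𝕜] X)), h5]
    rw [h3, norm_smul, hnt]
    have h7 : ‖(T1 : X →L[𝕜] X) - (A1 : X →L[𝕜] X)‖ < ε * t / 2 := by
      rw [← dist_eq_norm]
      exact hd1
    have h8 : ‖(T0 : X →L[𝕜] X) - (A2 : X →L[𝕜] X)‖ < ε * t / 2 := by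
      rw [← dist_eq_norm]
      exact hd2
    have h9 := norm_sub_le ((T1 : X →L[𝕜] X) - (A1 : X →L[𝕜] X))
      ((T0 : X →L[𝕜] X) - (A2 : X →L[𝕜] X))
    rw [inv_mul_le_iff₀ ht]
    linarith

/-- `T**` maps the bidual into the space when `T` is compact -/
theorem lift_exists {Y : Type*} [NormedAddCommGroup Y] [NormedSpace 𝕜 Y] {T : Y →L[𝕜] Y}
    (hT : IsCompactOperator T) (ξ : (Y →L[𝕜] 𝕜) →L[𝕜] 𝕜) {R : ℝ} (hR : ‖ξ‖ < R) :
    ∃ w ∈ closure (T '' Metric.closedBall 0 R), ∀ φ : Y →L[𝕜] 𝕜, φ w = ξ (φ.comp T) := by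
  classical
  have hR0 : 0 < R := lt_of_le_of_lt (norm_nonneg ξ) hR
  have hK : IsCompact (closure (T '' Metric.closedBall 0 R)) :=
    hT.isCompact_closure_image_closedBall R
  let S : ((Y →L[𝕜] 𝕜) × ℕ) → Set Y := fun i =>
    {w | ‖((i.2 : 𝕜) + 1) * (ξ (i.1.comp T) - i.1 w)‖ ≤ 1}
  have hS : ∀ i, IsClosed (S i) := fun i =>
    isClosed_le ((continuous_const.mul (continuous_const.sub i.1.continuous)).norm)
      continuous_const
  have hfin : ∀ u : Finset ((Y →L[𝕜] 𝕜) × ℕ),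
      (closure (T '' Metric.closedBall 0 R) ∩ ⋂ i ∈ u, S i).Nonempty := by
    intro u
    let Λ2 : Y →L[𝕜] (u → 𝕜) := ContinuousLinearMap.pi fun i : u =>
      (-(((i : (Y →L[𝕜] 𝕜) × ℕ).2 : 𝕜) + 1)) • ((i : (Y →L[𝕜] 𝕜) × ℕ).1.comp T)
    let Λ : Y →L[𝕜] (Y × (u → 𝕜)) :=
      ((((R : ℝ) : 𝕜)⁻¹) • ContinuousLinearMap.id 𝕜 Y).prod Λ2
    let s0 : u → 𝕜 := fun i => (((i : (Y →L[𝕜] 𝕜) × ℕ).2 : 𝕜) + 1) *
      ξ ((i : (Y →L[𝕜] 𝕜) × ℕ).1.comp T)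
    obtain ⟨v, hv⟩ := helly Λ ((0 : Y), s0) (fun g => ξ g) (map_zero ξ) (θ := ‖ξ‖ / R)
      ((div_lt_one hR0).2 hR) (fun f => by
        let f1 : Y →L[𝕜] 𝕜 := f.comp (ContinuousLinearMap.inl 𝕜 Y (u → 𝕜))
        let f2 : (u → 𝕜) →L[𝕜] 𝕜 := f.comp (ContinuousLinearMap.inr 𝕜 Y (u → 𝕜))
        have hf : ∀ y s, f (y, s) = f1 y + f2 s := by
          intro y s
          show f (y, s) = f (y, 0) + f (0, s)
          rw [← map_add]
          simp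
        have hf2 : ∀ s : u → 𝕜, f2 s = ∑ i, s i * f2 (Pi.single i 1) := by
          intro s
          conv_lhs => rw [← Finset.univ_sum_single s]
          rw [map_sum]
          refine Finset.sum_congr rfl fun i _ => ?_
          have : (Pi.single i (s i) : u → 𝕜) = s i • Pi.single i 1 := by
            rw [← Pi.single_smul, smul_eq_mul, mul_one]
          rw [this, map_smul, smul_eq_mul]
        have hcomp : f.comp Λ = ((R : ℝ) : 𝕜)⁻¹ • f1 -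
            ∑ i : u, ((((i : (Y →L[𝕜] 𝕜) × ℕ).2 : 𝕜) + 1) * f2 (Pi.single i 1)) •
              ((i : (Y →L[𝕜] 𝕜) × ℕ).1.comp T) := by
          ext y
          show f ((((R : ℝ) : 𝕜)⁻¹) • y, Λ2 y) = _
          rw [hf, map_smul, sub_apply, smul_apply, sum_apply, sub_eq_add_neg,
            ← Finset.sum_neg_distrib]
          congr 1
          rw [hf2]
          refine Finset.sum_congr rfl fun i _ => ?_
          show (-(((i : (Y →L[𝕜] 𝕜) × ℕ).2 : 𝕜) + 1)) • ((i : (Y →L[𝕜] 𝕜) × ℕ).1.comp T) y *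
            f2 (Pi.single i 1) = -(((((i : (Y →L[𝕜] 𝕜) × ℕ).2 : 𝕜) + 1) *
              f2 (Pi.single i 1)) • ((i : (Y →L[𝕜] 𝕜) × ℕ).1.comp T) y)
          rw [smul_eq_mul, smul_eq_mul]
          ring
        have hval : f ((0 : Y), s0) + ξ (f.comp Λ) = ((R : ℝ) : 𝕜)⁻¹ * ξ f1 := by
          rw [hcomp, hf, map_zero, zero_add, hf2, map_sub, map_smul, map_sum, smul_eq_mul]
          have : ∑ i : u, ξ (((((i : (Y →L[𝕜] 𝕜) × ℕ).2 : 𝕜) + 1) * f2 (Pi.single i 1)) •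
              ((i : (Y →L[𝕜] 𝕜) × ℕ).1.comp T)) = ∑ i, s0 i * f2 (Pi.single i 1) := by
            refine Finset.sum_congr rfl fun i _ => ?_
            rw [map_smul, smul_eq_mul]
            show _ = ((((i : (Y →L[𝕜] 𝕜) × ℕ).2 : 𝕜) + 1) *
              ξ ((i : (Y →L[𝕜] 𝕜) × ℕ).1.comp T)) * _
            ring
          rw [this]
          ring
        rw [hval, norm_mul, norm_inv, RCLike.norm_ofReal, abs_of_pos hR0]
        have h1 : ‖ξ f1‖ ≤ ‖ξ‖ * ‖f1‖ := ξ.le_opNorm f1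
        have h2 : ‖f1‖ ≤ ‖f‖ := by
          refine ContinuousLinearMap.opNorm_le_bound _ (norm_nonneg _) fun y => ?_
          have h3 := f.le_opNorm (y, (0 : u → 𝕜))
          have h4 : ‖((y, (0 : u → 𝕜)) : Y × (u → 𝕜))‖ = ‖y‖ := by
            rw [Prod.norm_def]
            simp
          rw [h4] at h3
          exact h3
        calc R⁻¹ * ‖ξ f1‖ ≤ R⁻¹ * (‖ξ‖ * ‖f‖) := by
              refine mul_le_mul_of_nonneg_left ?_ (by positivity)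
              exact h1.trans (mul_le_mul_of_nonneg_left h2 (norm_nonneg ξ))
          _ = ‖ξ‖ / R * ‖f‖ := by ring)
    have hv1 : ‖(((R : ℝ) : 𝕜)⁻¹) • v‖ < 1 := by
      have h1 : (((0 : Y), s0) + Λ v).1 = (((R : ℝ) : 𝕜)⁻¹) • v := by
        show (0 : Y) + (((R : ℝ) : 𝕜)⁻¹) • v = _
        rw [zero_add]
      rw [← h1]
      exact (norm_fst_le _).trans_lt hv
    have hv2 : ‖s0 + Λ2 v‖ < 1 := (norm_snd_le (((0 : Y), s0) + Λ v)).trans_lt hv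
    have hvR : ‖v‖ ≤ R := by
      rw [norm_smul, norm_inv, RCLike.norm_ofReal, abs_of_pos hR0, inv_mul_lt_iff₀ hR0,
        mul_one] at hv1
      exact hv1.le
    refine ⟨T v, subset_closure ⟨v, mem_closedBall_zero_iff.2 hvR, rfl⟩, ?_⟩
    rw [Set.mem_iInter₂]
    intro i hi
    have h1 : ‖(s0 + Λ2 v) ⟨i, hi⟩‖ ≤ 1 := (norm_le_pi_norm _ _).trans hv2.le
    have h2 : (s0 + Λ2 v) ⟨i, hi⟩ = ((i.2 : 𝕜) + 1) * (ξ (i.1.comp T) - i.1 (T v)) := by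
      show ((i.2 : 𝕜) + 1) * ξ (i.1.comp T) + (-((i.2 : 𝕜) + 1)) • (i.1.comp T) v = _
      rw [smul_eq_mul]
      show ((i.2 : 𝕜) + 1) * ξ (i.1.comp T) + (-((i.2 : 𝕜) + 1)) * i.1 (T v) = _
      ring
    rw [h2] at h1
    exact h1
  obtain ⟨w, hw1, hw2⟩ := hK.inter_iInter_nonempty S hS hfin
  refine ⟨w, hw1, fun φ => ?_⟩
  rw [Set.mem_iInter] at hw2
  by_contra hne
  have hpos : 0 < ‖ξ (φ.comp T) - φ w‖ := norm_pos_iff.2 (sub_ne_zero.2 (Ne.symm hne))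
  obtain ⟨n, hn⟩ := exists_nat_gt (1 / ‖ξ (φ.comp T) - φ w‖)
  have h1 : ‖((n : 𝕜) + 1) * (ξ (φ.comp T) - φ w)‖ ≤ 1 := hw2 (φ, n)
  have h2 : ‖((n : 𝕜) + 1)‖ = n + 1 := by
    have : ((n : 𝕜) + 1) = (((n : ℝ) + 1 : ℝ) : 𝕜) := by push_cast; rfl
    rw [this, RCLike.norm_ofReal, abs_of_nonneg (by positivity)]
  rw [norm_mul, h2] at h1
  rw [div_lt_iff₀ hpos] at hn
  nlinarith

end Pool.Agent.H57.KN
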