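import Pool.Agent.H57.KN.D

/-!
Subspaces with an extension operator for functionals; the dual space.
-/

namespace Pool.Agent.H57.KN

variable {𝕜 : Type*} [RCLike 𝕜]

/-- a compact operator of `Y` extends to `X` with values in `Y` -/
theorem extend {X : Type*} [NormedAddCommGroup X] [NormedSpace 𝕜 X] (Y : Submodule 𝕜 X)
    (Ext : (Y →L[𝕜] 𝕜) →L[𝕜] (X →L[𝕜] 𝕜)) (hE : ∀ (f : Y →L[𝕜] 𝕜) (y : Y), Ext f (y : X) = f y)
    (T : Y →L[𝕜] Y) (hT : IsCompactOperator T) :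
    ∃ S : X →L[𝕜] Y, IsCompactOperator S ∧ ‖S‖ ≤ ‖Ext‖ * ‖T‖ ∧ ∀ y : Y, S (y : X) = T y := by
  let ξ : X → ((Y →L[𝕜] 𝕜) →L[𝕜] 𝕜) := fun x => (ContinuousLinearMap.apply 𝕜 𝕜 x).comp Ext
  have hξ : ∀ x φ, ξ x φ = Ext φ x := fun x φ => rfl
  have hξn : ∀ x, ‖ξ x‖ ≤ ‖Ext‖ * ‖x‖ := by
    intro x
    refine ContinuousLinearMap.opNorm_le_bound _ (by positivity) fun φ => ?_
    rw [hξ]
    calc ‖Ext φ x‖ ≤ ‖Ext φ‖ * ‖x‖ := (Ext φ).le_opNorm x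
      _ ≤ (‖Ext‖ * ‖φ‖) * ‖x‖ := mul_le_mul_of_nonneg_right (Ext.le_opNorm φ) (norm_nonneg _)
      _ = ‖Ext‖ * ‖x‖ * ‖φ‖ := by ring
  have hex : ∀ x, ∃ w : Y, ∀ φ : Y →L[𝕜] 𝕜, φ w = Ext (φ.comp T) x := by
    intro x
    obtain ⟨w, _, hw⟩ := lift_exists hT (ξ x) (lt_add_one ‖ξ x‖)
    exact ⟨w, hw⟩
  choose w hw using hex
  have hinj : ∀ a b : Y, (∀ φ : Y →L[𝕜] 𝕜, φ a = φ b) → a = b := fun a b h =>
    (SeparatingDual.eq_iff_forall_dual_eq (R := 𝕜)).2 h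
  let S0 : X →ₗ[𝕜] Y :=
    { toFun := w
      map_add' := fun a b => hinj _ _ fun φ => by rw [map_add, hw, hw, hw, map_add]
      map_smul' := fun c a => hinj _ _ fun φ => by
        rw [RingHom.id_apply, map_smul, hw, hw, map_smul] }
  have hbound : ∀ x, ‖S0 x‖ ≤ ‖Ext‖ * ‖T‖ * ‖x‖ := by
    intro x
    refine NormedSpace.norm_le_dual_bound 𝕜 _ (by positivity) fun φ => ?_
    show ‖φ (w x)‖ ≤ _
    rw [hw]
    calc ‖Ext (φ.comp T) x‖ ≤ ‖Ext (φ.comp T)‖ * ‖x‖ := (Ext (φ.comp T)).le_opNorm x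
      _ ≤ (‖Ext‖ * ‖φ.comp T‖) * ‖x‖ :=
          mul_le_mul_of_nonneg_right (Ext.le_opNorm _) (norm_nonneg _)
      _ ≤ (‖Ext‖ * (‖φ‖ * ‖T‖)) * ‖x‖ := by
          refine mul_le_mul_of_nonneg_right ?_ (norm_nonneg _)
          exact mul_le_mul_of_nonneg_left (φ.opNorm_comp_le T) (norm_nonneg Ext)
      _ = ‖Ext‖ * ‖T‖ * ‖x‖ * ‖φ‖ := by ring
  let S : X →L[𝕜] Y := S0.mkContinuous (‖Ext‖ * ‖T‖) hbound
  have hS : ∀ x, S x = w x := fun x => rfl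
  refine ⟨S, ?_, ?_, ?_⟩
  · refine (isCompactOperator_iff_image_closedBall_subset_compact (S : X →ₗ[𝕜] Y)
      (zero_lt_one)).2 ⟨closure (T '' Metric.closedBall 0 (‖Ext‖ + 1)),
        hT.isCompact_closure_image_closedBall _, ?_⟩
    rintro _ ⟨x, hx, rfl⟩
    rw [mem_closedBall_zero_iff] at hx
    have h1 : ‖ξ x‖ < ‖Ext‖ + 1 := by
      refine lt_of_le_of_lt ((hξn x).trans (mul_le_of_le_one_right (norm_nonneg Ext) hx)) ?_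
      exact lt_add_one _
    obtain ⟨w', hw1, hw2⟩ := lift_exists hT (ξ x) h1
    have h2 : w' = w x := hinj _ _ fun φ => by rw [hw2, hw, hξ]
    show w x ∈ _
    rw [← h2]
    exact hw1
  · exact S0.mkContinuous_norm_le (by positivity) hbound
  · intro y
    refine hinj _ _ fun φ => ?_
    rw [hS, hw, hE]
    rfl

/-- the property passes to subspaces with an extension operator -/
theorem sub {X : Type*} [NormedAddCommGroup X] [NormedSpace 𝕜 X] [CompleteSpace X]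
    (hX : ∀ T : X →L[𝕜] X, IsCompactOperator T → ∃ M : ℝ, NucB M T)
    (Y : Submodule 𝕜 X) (hY : IsClosed (Y : Set X))
    (Ext : (Y →L[𝕜] 𝕜) →L[𝕜] (X →L[𝕜] 𝕜)) (hE : ∀ (f : Y →L[𝕜] 𝕜) (y : Y), Ext f (y : X) = f y)
    (T : Y →L[𝕜] Y) (hT : IsCompactOperator T) : ∃ M : ℝ, NucB M T := by
  have : CompleteSpace Y := hY.completeSpace_coe
  obtain ⟨C, hC, hu⟩ := uniform hX
  refine ⟨_, key (C := C * ‖Ext‖ * ‖Ext‖) (by positivity) ?_ T hT⟩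
  intro T hT
  obtain ⟨S, hSc, hSn, hSy⟩ := extend Y Ext hE T hT
  have h1 : IsCompactOperator (Y.subtypeL.comp S) := hSc.clm_comp Y.subtypeL
  obtain ⟨g, x, hs, hle, hx⟩ := hu _ h1
  let f : ℕ → (Y →L[𝕜] 𝕜) := fun n => (g n).comp Y.subtypeL
  let z : ℕ → ((Y →L[𝕜] 𝕜) →L[𝕜] 𝕜) := fun n =>
    (ContinuousLinearMap.apply 𝕜 𝕜 (x n)).comp Ext
  have hf : ∀ n, ‖f n‖ ≤ ‖g n‖ := by
    intro n
    refine ContinuousLinearMap.opNorm_le_bound _ (norm_nonneg _) fun y => ?_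
    exact (g n).le_opNorm (y : X)
  have hz : ∀ n, ‖z n‖ ≤ ‖Ext‖ * ‖x n‖ := by
    intro n
    refine ContinuousLinearMap.opNorm_le_bound _ (by positivity) fun φ => ?_
    show ‖Ext φ (x n)‖ ≤ _
    calc ‖Ext φ (x n)‖ ≤ ‖Ext φ‖ * ‖x n‖ := (Ext φ).le_opNorm _
      _ ≤ (‖Ext‖ * ‖φ‖) * ‖x n‖ := mul_le_mul_of_nonneg_right (Ext.le_opNorm φ) (norm_nonneg _)
      _ = ‖Ext‖ * ‖x n‖ * ‖φ‖ := by ring
  have hfz : ∀ n, ‖f n‖ * ‖z n‖ ≤ ‖Ext‖ * (‖g n‖ * ‖x n‖) := by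
    intro n
    calc ‖f n‖ * ‖z n‖ ≤ ‖g n‖ * (‖Ext‖ * ‖x n‖) :=
          mul_le_mul (hf n) (hz n) (norm_nonneg (z n)) (norm_nonneg (g n))
      _ = _ := by ring
  have hsum : Summable fun n => ‖f n‖ * ‖z n‖ :=
    Summable.of_nonneg_of_le (fun n => mul_nonneg (norm_nonneg (f n)) (norm_nonneg (z n))) hfz
      (hs.mul_left _)
  refine ⟨f, z, hsum, ?_, ?_⟩
  · have h2 : ∑' n, ‖f n‖ * ‖z n‖ ≤ ‖Ext‖ * ∑' n, ‖g n‖ * ‖x n‖ := by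
      rw [← tsum_mul_left]
      exact hsum.tsum_le_tsum hfz (hs.mul_left _)
    have h3 : ‖Y.subtypeL.comp S‖ ≤ ‖Ext‖ * ‖T‖ := by
      refine ContinuousLinearMap.opNorm_le_bound _ (by positivity) fun a => ?_
      show ‖((S a : Y) : X)‖ ≤ _
      exact S.le_of_opNorm_le hSn a
    calc ∑' n, ‖f n‖ * ‖z n‖ ≤ ‖Ext‖ * ∑' n, ‖g n‖ * ‖x n‖ := h2
      _ ≤ ‖Ext‖ * (C * ‖Y.subtypeL.comp S‖) := mul_le_mul_of_nonneg_left hle (norm_nonneg Ext)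
      _ ≤ ‖Ext‖ * (C * (‖Ext‖ * ‖T‖)) := by
          refine mul_le_mul_of_nonneg_left ?_ (norm_nonneg Ext)
          exact mul_le_mul_of_nonneg_left h3 hC
      _ = C * ‖Ext‖ * ‖Ext‖ * ‖T‖ := by ring
  · intro y φ
    have h4 := (hx (y : X)).mapL (Ext φ)
    have h5 : Ext φ ((Y.subtypeL.comp S) (y : X)) = φ (T y) := by
      show Ext φ ((S (y : X) : Y) : X) = φ (T y)
      rw [hSy, hE]
    rw [h5] at h4
    refine h4.congr_fun ?_ |> fun h => h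
    intro n
    show f n y * z n φ = Ext φ (g n (y : X) • x n)
    rw [map_smul, smul_eq_mul]
    rfl

/-- the dual space -/
theorem dual {X : Type*} [NormedAddCommGroup X] [NormedSpace 𝕜 X] [CompleteSpace X]
    (hX : ∀ T : (X →L[𝕜] 𝕜) →L[𝕜] (X →L[𝕜] 𝕜), IsCompactOperator T → ∃ M : ℝ, NucB M T)
    (hsch : ∀ (T : X →L[𝕜] X), IsCompactOperator T →
      ∀ S : (X →L[𝕜] 𝕜) →L[𝕜] (X →L[𝕜] 𝕜), (∀ f, S f = f.comp T) → IsCompactOperator S)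
    (T : X →L[𝕜] X) (hT : IsCompactOperator T) : ∃ M : ℝ, NucB M T := by
  obtain ⟨C, hC, hu⟩ := uniform hX
  refine ⟨_, key (C := C) hC ?_ T hT⟩
  intro T hT
  let S : (X →L[𝕜] 𝕜) →L[𝕜] (X →L[𝕜] 𝕜) := (ContinuousLinearMap.compL 𝕜 X X 𝕜).flip T
  have hS : ∀ f, S f = f.comp T := fun f => rfl
  have hSn : ‖S‖ ≤ ‖T‖ := by
    refine ContinuousLinearMap.opNorm_le_bound _ (norm_nonneg _) fun f => ?_
    rw [hS, mul_comm]
    exact f.opNorm_comp_le T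
  obtain ⟨g, x, hs, hle, hx⟩ := hu S (hsch T hT S hS)
  have hcomm : (fun n => ‖x n‖ * ‖g n‖) = fun n => ‖g n‖ * ‖x n‖ := by
    funext n
    ring
  refine ⟨x, g, ?_, ?_, ?_⟩
  · rw [hcomm]
    exact hs
  · rw [hcomm]
    exact hle.trans (mul_le_mul_of_nonneg_left hSn hC)
  · intro y φ
    have h1 := (hx φ).mapL (ContinuousLinearMap.apply 𝕜 𝕜 y)
    have h2 : (ContinuousLinearMap.apply 𝕜 𝕜 y) (S φ) = φ (T y) := rfl
    rw [h2] at h1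
    refine h1.congr_fun ?_ |> fun h => h
    intro n
    show x n y * g n φ = g n φ * x n y
    rw [mul_comm]

end Pool.Agent.H57.KN
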