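import Mathlib

set_option autoImplicit false

/-!
# [H57 KN F] Schauder: the adjoint of a compact operator is compact (helper42)
-/

namespace Pool.Agent.H57.KN

open Metric Set

theorem schauder {𝕜 : Type*} [RCLike 𝕜] {X : Type*} [NormedAddCommGroup X] [NormedSpace 𝕜 X] (T : X →L[𝕜] X)
    (hT : IsCompactOperator T) (S : (X →L[𝕜] 𝕜) →L[𝕜] (X →L[𝕜] 𝕜)) (hS : ∀ f, S f = f.comp T) :
    IsCompactOperator S := by
  have key : TotallyBounded (S '' closedBall (0 : X →L[𝕜] 𝕜) 1) := by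
    rw [Metric.totallyBounded_iff]
    intro ε hε
    -- finitely many points of `X`
    have h1 : TotallyBounded (T '' closedBall (0 : X) 1) :=
      ((hT.isCompact_closure_image_closedBall (f := (T : X →ₗ[𝕜] X)) 1).totallyBounded).subset subset_closure
    obtain ⟨t, htf, ht⟩ := Metric.totallyBounded_iff.1 h1 (ε / 6) (by positivity)
    have : Fintype t := htf.fintype
    -- the values at these points
    let Φ : (X →L[𝕜] 𝕜) → (t → 𝕜) := fun f y => f y
    have h2 : Bornology.IsBounded (Φ '' closedBall (0 : X →L[𝕜] 𝕜) 1) := by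
      rw [isBounded_iff_forall_norm_le]
      obtain ⟨C, hC0, hC⟩ : ∃ C : ℝ, 0 ≤ C ∧ ∀ y : t, ‖(y : X)‖ ≤ C := by
        refine ⟨∑ y : t, ‖(y : X)‖, Finset.sum_nonneg fun _ _ => norm_nonneg _, fun y => ?_⟩
        exact Finset.single_le_sum (f := fun y : t => ‖(y : X)‖) (fun _ _ => norm_nonneg _) (Finset.mem_univ y)
      refine ⟨C, ?_⟩
      rintro _ ⟨f, hf, rfl⟩
      rw [pi_norm_le_iff_of_nonneg hC0]
      intro y
      have h3 : ‖f‖ ≤ 1 := mem_closedBall_zero_iff.1 hf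
      calc ‖f y‖ ≤ ‖f‖ * ‖(y : X)‖ := f.le_opNorm _
        _ ≤ 1 * C := mul_le_mul h3 (hC y) (norm_nonneg _) zero_le_one
        _ = C := one_mul C
    have h3 : TotallyBounded (Φ '' closedBall (0 : X →L[𝕜] 𝕜) 1) :=
      (h2.isCompact_closure.totallyBounded).subset subset_closure
    obtain ⟨u, hus, huf, hu⟩ := Metric.finite_approx_of_totallyBounded h3 (ε / 6) (by positivity)
    have h4 : ∀ v, v ∈ u → ∃ f : X →L[𝕜] 𝕜, ‖f‖ ≤ 1 ∧ Φ f = v := by
      intro v hv
      obtain ⟨f, hf, hfv⟩ := hus hv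
      exact ⟨f, mem_closedBall_zero_iff.1 hf, hfv⟩
    choose! F hF1 hF2 using h4
    refine ⟨(fun v => S (F v)) '' u, huf.image _, ?_⟩
    rintro _ ⟨f, hf, rfl⟩
    have hf1 : ‖f‖ ≤ 1 := mem_closedBall_zero_iff.1 hf
    obtain ⟨v, hv, hfv⟩ := mem_iUnion₂.1 (hu ⟨f, hf, rfl⟩)
    refine mem_iUnion₂.2 ⟨S (F v), mem_image_of_mem _ hv, ?_⟩
    rw [mem_ball, dist_eq_norm]
    have h5 : ∀ y : t, ‖(f - F v) (y : X)‖ ≤ ε / 6 := by
      intro y
      rw [mem_ball, ← hF2 v hv, dist_eq_norm] at hfv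
      have h6 := norm_le_pi_norm (Φ f - Φ (F v)) y
      exact h6.trans hfv.le
    have h6 : ‖f - F v‖ ≤ 2 := (norm_sub_le _ _).trans (by linarith [hF1 v hv])
    have h7 : ‖S f - S (F v)‖ ≤ ε / 2 := by
      refine ContinuousLinearMap.opNorm_le_of_unit_norm (by positivity) fun x hx => ?_
      have h8 : T x ∈ T '' closedBall (0 : X) 1 := ⟨x, mem_closedBall_zero_iff.2 hx.le, rfl⟩
      obtain ⟨y, hy, hxy⟩ := mem_iUnion₂.1 (ht h8)
      rw [mem_ball, dist_eq_norm] at hxy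
      have h9 : (S f - S (F v)) x = (f - F v) y + (f - F v) (T x - y) := by
        rw [hS, hS, ← map_add, add_sub_cancel]
        rfl
      rw [h9]
      calc ‖(f - F v) y + (f - F v) (T x - y)‖ ≤ ‖(f - F v) y‖ + ‖(f - F v) (T x - y)‖ := norm_add_le _ _
        _ ≤ ε / 6 + ‖f - F v‖ * ‖T x - y‖ := add_le_add (h5 ⟨y, hy⟩) ((f - F v).le_opNorm _)
        _ ≤ ε / 6 + 2 * (ε / 6) := by
          refine add_le_add le_rfl ?_
          exact mul_le_mul h6 hxy.le (norm_nonneg _) (by norm_num)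
        _ = ε / 2 := by ring
    linarith
  have h := (isCompactOperator_iff_isCompact_closure_image_closedBall (S : (X →L[𝕜] 𝕜) →ₗ[𝕜] (X →L[𝕜] 𝕜))
    zero_lt_one).2 (by
      rw [isCompact_iff_totallyBounded_isComplete]
      exact ⟨key.closure, isClosed_closure.isComplete⟩)
  exact h

end Pool.Agent.H57.KN
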