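import Mathlib

/-!
Row 18667 (helper57, MP_d58ff5_an): every separable subset of a Banach space lies in a
separable closed subspace `Y` whose functionals extend to the whole space by a bounded
linear operator (Heinrich-Mankiewicz, Sims-Yost).
-/

namespace Pool.Agent.H57.KN

open Filter Topology Set

universe u v

/-- A constraint on a map `T : X → X`. -/
private abbrev Con (𝕜 : Type u) (X : Type v) : Type (max u v) :=
  (Fin 3 → 𝕜) × (Fin 3 → X) × X × ℚ

private def Sat {𝕜 : Type u} [RCLike 𝕜] {X : Type v} [NormedAddCommGroup X] [NormedSpace 𝕜 X]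
    (c : Con 𝕜 X) (T : X → X) : Prop :=
  ‖c.1 0 • T (c.2.1 0) + c.1 1 • T (c.2.1 1) + c.1 2 • T (c.2.1 2) - c.2.2.1‖ < (c.2.2.2 : ℝ)

private def Valid {𝕜 : Type u} [RCLike 𝕜] {X : Type v} [NormedAddCommGroup X] [NormedSpace 𝕜 X]
    (Q : Set 𝕜) (D : Set X) (c : Con 𝕜 X) : Prop :=
  (∀ l, c.1 l ∈ Q) ∧ c.2.2.1 ∈ D ∧ Sat c (fun x => x)

/-- A finite system. -/
private def Ok {𝕜 : Type u} [RCLike 𝕜] {X : Type v} [NormedAddCommGroup X] [NormedSpace 𝕜 X]
    {j k : ℕ} (a : Fin j → Fin 3 → 𝕜) (i : Fin j → Fin 3 → Fin k) (d : Fin j → X)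
    (r : Fin j → ℚ) (x : Fin k → X) : Prop :=
  ∀ c : Fin j, ‖a c 0 • x (i c 0) + a c 1 • x (i c 1) + a c 2 • x (i c 2) - d c‖ < (r c : ℝ)

private theorem step {𝕜 : Type u} [RCLike 𝕜] {X : Type v} [NormedAddCommGroup X]
    [NormedSpace 𝕜 X] (Q : Set 𝕜) (hQ : Q.Countable) (D : Set X) (hD : D.Countable) :
    ∃ D' : Set X, D'.Countable ∧ D ⊆ D' ∧
      ∀ (j k : ℕ) (a : Fin j → Fin 3 → 𝕜) (i : Fin j → Fin 3 → Fin k) (d : Fin j → X)
        (r : Fin j → ℚ), (∀ c l, a c l ∈ Q) → (∀ c, d c ∈ D) → (∃ x, Ok a i d r x) →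
        ∃ x, (∀ m, x m ∈ D') ∧ Ok a i d r x := by
  classical
  haveI : Countable Q := hQ.to_subtype
  haveI : Countable D := hD.to_subtype
  let P : Type _ := Σ j : ℕ, Σ k : ℕ,
    (Fin j → Fin 3 → Q) × (Fin j → Fin 3 → Fin k) × (Fin j → D) × (Fin j → ℚ)
  haveI : Countable P := by
    dsimp only [P]
    infer_instance
  let sol : (p : P) → Fin p.2.1 → X := fun p =>
    if h : ∃ x : Fin p.2.1 → X, Ok (fun c l => (p.2.2.1 c l : 𝕜)) p.2.2.2.1
        (fun c => (p.2.2.2.2.1 c : X)) p.2.2.2.2.2 x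
      then h.choose else fun _ => 0
  have hsol : ∀ p : P, (∃ x : Fin p.2.1 → X, Ok (fun c l => (p.2.2.1 c l : 𝕜)) p.2.2.2.1
        (fun c => (p.2.2.2.2.1 c : X)) p.2.2.2.2.2 x) →
      Ok (fun c l => (p.2.2.1 c l : 𝕜)) p.2.2.2.1
        (fun c => (p.2.2.2.2.1 c : X)) p.2.2.2.2.2 (sol p) := by
    intro p h
    have : sol p = h.choose := by
      simp only [sol]
      rw [dif_pos h]
    rw [this]
    exact h.choose_spec
  refine ⟨D ∪ ⋃ p : P, range (sol p), ?_, subset_union_left, ?_⟩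
  · refine hD.union (countable_iUnion fun p => ?_)
    exact countable_range _
  · intro j k a i d r ha hd hx
    let p : P := ⟨j, k, (fun c l => ⟨a c l, ha c l⟩), i, (fun c => ⟨d c, hd c⟩), r⟩
    refine ⟨sol p, fun m => Or.inr (mem_iUnion.mpr ⟨p, ⟨m, rfl⟩⟩), ?_⟩
    exact hsol p hx

private theorem closed_set {𝕜 : Type u} [RCLike 𝕜] {X : Type v} [NormedAddCommGroup X]
    [NormedSpace 𝕜 X] (Q : Set 𝕜) (hQ : Q.Countable) (D₀ : Set X) (hD₀ : D₀.Countable) :
    ∃ D : Set X, D.Countable ∧ D₀ ⊆ D ∧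
      ∀ (j k : ℕ) (a : Fin j → Fin 3 → 𝕜) (i : Fin j → Fin 3 → Fin k) (d : Fin j → X)
        (r : Fin j → ℚ), (∀ c l, a c l ∈ Q) → (∀ c, d c ∈ D) → (∃ x, Ok a i d r x) →
        ∃ x, (∀ m, x m ∈ D) ∧ Ok a i d r x := by
  classical
  let S : {D : Set X // D.Countable} → {D : Set X // D.Countable} := fun D =>
    ⟨(step Q hQ D.1 D.2).choose, (step Q hQ D.1 D.2).choose_spec.1⟩
  let E : ℕ → {D : Set X // D.Countable} := fun n => S^[n] ⟨D₀, hD₀⟩
  have hE0 : (E 0).1 = D₀ := rfl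
  have hES : ∀ n, E (n + 1) = S (E n) := fun n => by
    simp only [E]
    rw [Function.iterate_succ_apply']
  have hmono1 : ∀ n, (E n).1 ⊆ (E (n + 1)).1 := by
    intro n
    rw [hES n]
    exact (step Q hQ (E n).1 (E n).2).choose_spec.2.1
  have hmono : Monotone (fun n => (E n).1) := monotone_nat_of_le_succ hmono1
  refine ⟨⋃ n, (E n).1, countable_iUnion fun n => (E n).2, ?_, ?_⟩
  · intro x hx
    exact mem_iUnion.mpr ⟨0, hx⟩
  · intro j k a i d r ha hd hx
    have hd' : ∀ c, ∃ n, d c ∈ (E n).1 := fun c => mem_iUnion.mp (hd c)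
    choose n hn using hd'
    let N : ℕ := Finset.univ.sup n
    have hN : ∀ c, d c ∈ (E N).1 := fun c =>
      hmono (Finset.le_sup (f := n) (Finset.mem_univ c)) (hn c)
    obtain ⟨x, hx1, hx2⟩ := (step Q hQ (E N).1 (E N).2).choose_spec.2.2 j k a i d r ha hN hx
    refine ⟨x, fun m => mem_iUnion.mpr ⟨N + 1, ?_⟩, hx2⟩
    rw [hES N]
    exact hx1 m

private theorem closed_map {𝕜 : Type u} [RCLike 𝕜] {X : Type v} [NormedAddCommGroup X]
    [NormedSpace 𝕜 X] (Q : Set 𝕜) (D : Set X) (h0 : (0 : X) ∈ D)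
    (hD : ∀ (j k : ℕ) (a : Fin j → Fin 3 → 𝕜) (i : Fin j → Fin 3 → Fin k) (d : Fin j → X)
        (r : Fin j → ℚ), (∀ c l, a c l ∈ Q) → (∀ c, d c ∈ D) → (∃ x, Ok a i d r x) →
        ∃ x, (∀ m, x m ∈ D) ∧ Ok a i d r x) (F : Finset (Con 𝕜 X)) :
    ∃ T : X → X, (∀ x, T x ∈ D) ∧ ∀ c ∈ F, Valid Q D c → Sat c T := by
  classical
  let F' : Finset (Con 𝕜 X) := F.filter (fun c => Valid Q D c)
  let V : Finset X := F'.biUnion (fun c => Finset.univ.image c.2.1)
  have hV : ∀ c ∈ F', ∀ l, c.2.1 l ∈ V := fun c hc l =>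
    Finset.mem_biUnion.mpr ⟨c, hc, Finset.mem_image_of_mem _ (Finset.mem_univ l)⟩
  have hF' : ∀ c ∈ F', Valid Q D c := fun c hc => (Finset.mem_filter.mp hc).2
  let e := F'.equivFin
  let g := V.equivFin
  obtain ⟨y, hy1, hy2⟩ := hD F'.card V.card (fun c => (e.symm c).1.1)
    (fun c l => g ⟨(e.symm c).1.2.1 l, hV _ (e.symm c).2 l⟩) (fun c => (e.symm c).1.2.2.1)
    (fun c => (e.symm c).1.2.2.2) (fun c l => (hF' _ (e.symm c).2).1 l)
    (fun c => (hF' _ (e.symm c).2).2.1)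
    ⟨fun m => (g.symm m).1, fun c => by
      have := (hF' _ (e.symm c).2).2.2
      simpa [Sat] using this⟩
  refine ⟨fun x => if h : x ∈ V then y (g ⟨x, h⟩) else 0, ?_, ?_⟩
  · intro x
    by_cases h : x ∈ V
    · simp only [h, dif_pos]
      exact hy1 _
    · simp only [h, dif_neg, not_false_eq_true]
      exact h0
  · intro c hc hv
    have hcF : c ∈ F' := Finset.mem_filter.mpr ⟨hc, hv⟩
    have h2 := hy2 (e ⟨c, hcF⟩)
    have hl : ∀ l, c.2.1 l ∈ V := hV c hcF
    simp only [Equiv.symm_apply_apply] at h2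
    unfold Sat
    simp only [hl, dif_pos]
    exact h2

theorem exists_ext {𝕜 : Type*} [RCLike 𝕜] {X : Type*} [NormedAddCommGroup X] [NormedSpace 𝕜 X]
    [CompleteSpace X] (Z : Set X) (hZ : TopologicalSpace.IsSeparable Z) :
    ∃ Y : Submodule 𝕜 X, IsClosed (Y : Set X) ∧ Z ⊆ Y ∧
      TopologicalSpace.IsSeparable (Y : Set X) ∧
      ∃ E : (Y →L[𝕜] 𝕜) →L[𝕜] (X →L[𝕜] 𝕜), ∀ (f : Y →L[𝕜] 𝕜) (y : Y), E f (y : X) = f y := by
  classical
  obtain ⟨D₁, hD₁, hZD⟩ := hZ
  obtain ⟨Q₁, hQ₁, hQ₁d⟩ := TopologicalSpace.exists_countable_dense 𝕜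
  let Q : Set 𝕜 := Q₁ ∪ {0, 1, -1}
  have hQc : Q.Countable := hQ₁.union (Set.Finite.countable (by simp))
  have hQd : Dense Q := hQ₁d.mono subset_union_left
  have hQ0 : (0 : 𝕜) ∈ Q := Or.inr (by simp)
  have hQ1 : (1 : 𝕜) ∈ Q := Or.inr (by simp)
  have hQm : (-1 : 𝕜) ∈ Q := Or.inr (by simp)
  obtain ⟨D, hDc, hD0, hDcl⟩ := closed_set Q hQc (D₁ ∪ {0}) (hD₁.union (countable_singleton 0))
  have h0 : (0 : X) ∈ D := hD0 (Or.inr rfl)
  let Y : Submodule 𝕜 X := (Submodule.span 𝕜 D).topologicalClosure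
  have hDY : D ⊆ Y := fun x hx => Submodule.le_topologicalClosure _ (Submodule.subset_span hx)
  have hYc : IsClosed (Y : Set X) := Submodule.isClosed_topologicalClosure _
  refine ⟨Y, hYc, ?_, ?_, ?_⟩
  · refine hZD.trans ?_
    exact closure_minimal (fun x hx => hDY (hD0 (Or.inl hx))) hYc
  · have h1 : TopologicalSpace.IsSeparable D := hDc.isSeparable
    have h2 : TopologicalSpace.IsSeparable (Submodule.span 𝕜 D : Set X) := h1.span
    exact h2.closure
  -- the approximate maps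
  have hT := fun F : Finset (Con 𝕜 X) => closed_map Q D h0 hDcl F
  choose T hTD hTs using hT
  let U : Ultrafilter (Finset (Con 𝕜 X)) := Ultrafilter.of atTop
  have hU : (U : Filter (Finset (Con 𝕜 X))) ≤ atTop := Ultrafilter.of_le _
  have key : ∀ c : Con 𝕜 X, Valid Q D c → ∀ᶠ F in (U : Filter (Finset (Con 𝕜 X))),
      Sat c (T F) := by
    intro c hc
    refine hU ?_
    filter_upwards [eventually_ge_atTop {c}] with F hF
    exact hTs F c (hF (Finset.mem_singleton_self c)) hc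
  have hnorm : ∀ (x : X) (r : ℚ), ‖x‖ < (r : ℝ) →
      ∀ᶠ F in (U : Filter (Finset (Con 𝕜 X))), ‖T F x‖ < (r : ℝ) := by
    intro x r hr
    have := key (![1, 0, 0], ![x, x, x], 0, r) ⟨?_, h0, ?_⟩
    · filter_upwards [this] with F hF
      simpa [Sat] using hF
    · intro l
      fin_cases l
      · simpa using hQ1
      · simpa using hQ0
      · simpa using hQ0
    · simpa [Sat] using hr
  have hadd : ∀ (x y : X) (r : ℚ), (0 : ℝ) < (r : ℝ) →
      ∀ᶠ F in (U : Filter (Finset (Con 𝕜 X))), ‖T F (x + y) - T F x - T F y‖ < (r : ℝ) := by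
    intro x y r hr
    have := key (![1, -1, -1], ![x + y, x, y], 0, r) ⟨?_, h0, ?_⟩
    · filter_upwards [this] with F hF
      have h3 : T F (x + y) - T F x - T F y = T F (x + y) + -T F x + -T F y := by abel
      rw [h3]
      simpa [Sat] using hF
    · intro l
      fin_cases l
      · simpa using hQ1
      · simpa using hQm
      · simpa using hQm
    · have h3 : x + y + -x + -y = 0 := by abel
      simpa [Sat, h3] using hr
  have hsmul : ∀ (q : 𝕜), q ∈ Q → ∀ (x : X) (r : ℚ), (0 : ℝ) < (r : ℝ) →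
      ∀ᶠ F in (U : Filter (Finset (Con 𝕜 X))), ‖T F (q • x) - q • T F x‖ < (r : ℝ) := by
    intro q hq x r hr
    have := key (![-1, q, 0], ![q • x, x, x], 0, r) ⟨?_, h0, ?_⟩
    · filter_upwards [this] with F hF
      have h3 : ‖T F (q • x) - q • T F x‖ = ‖-T F (q • x) + q • T F x‖ := by
        rw [← norm_neg]
        congr 1
        abel
      rw [h3]
      simpa [Sat] using hF
    · intro l
      fin_cases l
      · simpa using hQm
      · simpa using hq
      · simpa using hQ0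
    · simpa [Sat] using hr
  have hclose : ∀ (x : X), x ∈ D → ∀ (r : ℚ), (0 : ℝ) < (r : ℝ) →
      ∀ᶠ F in (U : Filter (Finset (Con 𝕜 X))), ‖T F x - x‖ < (r : ℝ) := by
    intro x hx r hr
    have := key (![1, 0, 0], ![x, x, x], x, r) ⟨?_, hx, ?_⟩
    · filter_upwards [this] with F hF
      simpa [Sat] using hF
    · intro l
      fin_cases l
      · simpa using hQ1
      · simpa using hQ0
      · simpa using hQ0
    · simpa [Sat] using hr
  -- small quantities tend to zero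
  have tz : ∀ (w : Finset (Con 𝕜 X) → Y), (∀ r : ℚ, (0 : ℝ) < (r : ℝ) →
      ∀ᶠ F in (U : Filter (Finset (Con 𝕜 X))), ‖(w F : X)‖ < (r : ℝ)) →
      ∀ f : Y →L[𝕜] 𝕜, Tendsto (fun F => f (w F)) U (𝓝 0) := by
    intro w hw f
    have h1 : Tendsto w U (𝓝 0) := by
      rw [tendsto_zero_iff_norm_tendsto_zero, Metric.tendsto_nhds]
      intro ε hε
      obtain ⟨r, hr0, hrε⟩ := exists_rat_btwn hε
      filter_upwards [hw r hr0] with F hF
      rw [Real.dist_eq, sub_zero, abs_of_nonneg (norm_nonneg _)]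
      have : ‖w F‖ = ‖(w F : X)‖ := rfl
      rw [this]
      exact hF.trans hrε
    have h2 := (f.continuous.tendsto 0).comp h1
    rw [map_zero] at h2
    exact h2
  let t : Finset (Con 𝕜 X) → X → Y := fun F x => ⟨T F x, hDY (hTD F x)⟩
  have hbd : ∀ (f : Y →L[𝕜] 𝕜) (x : X) (r : ℚ), ‖x‖ < (r : ℝ) →
      ∀ᶠ F in (U : Filter (Finset (Con 𝕜 X))), ‖f (t F x)‖ ≤ ‖f‖ * (r : ℝ) := by
    intro f x r hr
    filter_upwards [hnorm x r hr] with F hF
    refine (f.le_opNorm _).trans ?_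
    refine mul_le_mul_of_nonneg_left ?_ (norm_nonneg _)
    exact hF.le
  have hlim : ∀ (f : Y →L[𝕜] 𝕜) (x : X), ∃ l : 𝕜,
      Tendsto (fun F => f (t F x)) (U : Filter (Finset (Con 𝕜 X))) (𝓝 l) := by
    intro f x
    obtain ⟨r, hr⟩ := exists_rat_gt ‖x‖
    have hK : IsCompact (Metric.closedBall (0 : 𝕜) (‖f‖ * (r : ℝ))) := isCompact_closedBall _ _
    obtain ⟨l, -, hl⟩ := hK.ultrafilter_le_nhds' (U.map (fun F => f (t F x))) (by
      rw [Ultrafilter.mem_map]
      filter_upwards [hbd f x r hr] with F hF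
      simpa using hF)
    exact ⟨l, hl⟩
  choose L hL using hlim
  have hLadd : ∀ f x y, L f (x + y) = L f x + L f y := by
    intro f x y
    have h1 := tz (fun F => t F (x + y) - t F x - t F y) (fun r hr => by
      simpa [t] using hadd x y r hr) f
    have h2 : Tendsto (fun F => f (t F (x + y) - t F x - t F y)) U
        (𝓝 (L f (x + y) - L f x - L f y)) := by
      simp only [map_sub]
      exact ((hL f (x + y)).sub (hL f x)).sub (hL f y)
    have h3 := tendsto_nhds_unique h1 h2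
    linear_combination -h3
  have hLbd : ∀ f x, ‖L f x‖ ≤ ‖f‖ * ‖x‖ := by
    intro f x
    have h1 : ∀ n : ℕ, ‖L f x‖ ≤ ‖f‖ * (‖x‖ + 1 / ((n : ℝ) + 1)) := by
      intro n
      have hn : (0 : ℝ) < 1 / ((n : ℝ) + 1) := by positivity
      obtain ⟨r, hr1, hr2⟩ := exists_rat_btwn (show ‖x‖ < ‖x‖ + 1 / ((n : ℝ) + 1) by linarith)
      have h2 : ‖L f x‖ ≤ ‖f‖ * (r : ℝ) := le_of_tendsto (hL f x).norm (hbd f x r hr1)
      exact h2.trans (mul_le_mul_of_nonneg_left hr2.le (norm_nonneg _))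
    have h2 : Tendsto (fun n : ℕ => ‖f‖ * (‖x‖ + 1 / ((n : ℝ) + 1))) atTop
        (𝓝 (‖f‖ * (‖x‖ + 0))) :=
      (tendsto_one_div_add_atTop_nhds_zero_nat.const_add _).const_mul _
    have h3 := ge_of_tendsto' h2 h1
    simpa using h3
  have hLq : ∀ f, ∀ q ∈ Q, ∀ x, L f (q • x) = q * L f x := by
    intro f q hq x
    have h1 := tz (fun F => t F (q • x) - q • t F x) (fun r hr => by
      simpa [t] using hsmul q hq x r hr) f
    have h2 : Tendsto (fun F => f (t F (q • x) - q • t F x)) U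
        (𝓝 (L f (q • x) - q * L f x)) := by
      simp only [map_sub, map_smul, smul_eq_mul]
      exact (hL f (q • x)).sub ((hL f x).const_mul q)
    have h3 := tendsto_nhds_unique h1 h2
    linear_combination -h3
  have hLcont : ∀ f, Continuous (L f) := by
    intro f
    exact AddMonoidHomClass.continuous_of_bound (AddMonoidHom.mk' (L f) (hLadd f)) ‖f‖ (hLbd f)
  have hLsmul : ∀ f (q : 𝕜) x, L f (q • x) = q * L f x := by
    intro f q x
    have h1 : Continuous (fun q : 𝕜 => L f (q • x)) :=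
      (hLcont f).comp (continuous_id.smul continuous_const)
    have h2 : Continuous (fun q : 𝕜 => q * L f x) := continuous_id.mul continuous_const
    exact congrFun (Continuous.ext_on hQd h1 h2 (fun q hq => hLq f q hq x)) q
  let A : (Y →L[𝕜] 𝕜) → (X →L[𝕜] 𝕜) := fun f =>
    LinearMap.mkContinuous
      { toFun := L f
        map_add' := hLadd f
        map_smul' := fun q x => by simpa using hLsmul f q x } ‖f‖ (hLbd f)
  have hA : ∀ f x, A f x = L f x := fun f x => rfl
  have hAn : ∀ f, ‖A f‖ ≤ 1 * ‖f‖ := fun f => by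
    rw [one_mul]
    exact LinearMap.mkContinuous_norm_le _ (norm_nonneg _) _
  let E : (Y →L[𝕜] 𝕜) →L[𝕜] (X →L[𝕜] 𝕜) :=
    LinearMap.mkContinuous
      { toFun := A
        map_add' := fun f g => by
          ext x
          rw [ContinuousLinearMap.add_apply, hA, hA, hA]
          refine tendsto_nhds_unique (hL (f + g) x) ?_
          simp only [ContinuousLinearMap.add_apply]
          exact (hL f x).add (hL g x)
        map_smul' := fun q f => by
          ext x
          rw [RingHom.id_apply, ContinuousLinearMap.smul_apply, hA, hA]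
          refine tendsto_nhds_unique (hL (q • f) x) ?_
          simp only [ContinuousLinearMap.smul_apply]
          exact (hL f x).const_smul q } 1 hAn
  have hE : ∀ f x, E f x = L f x := fun f x => rfl
  refine ⟨E, ?_⟩
  intro f y
  obtain ⟨g, hg, -⟩ := exists_extension_norm_eq Y f
  have hD' : ∀ x ∈ D, (E f - g) x = 0 := by
    intro x hx
    have h1 := tz (fun F => t F x - ⟨x, hDY hx⟩) (fun r hr => by
      simpa [t] using hclose x hx r hr) f
    have h2 : Tendsto (fun F => f (t F x - ⟨x, hDY hx⟩)) U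
        (𝓝 (L f x - f ⟨x, hDY hx⟩)) := by
      simp only [map_sub]
      exact (hL f x).sub tendsto_const_nhds
    have h3 := tendsto_nhds_unique h1 h2
    rw [ContinuousLinearMap.sub_apply, hE, hg ⟨x, hDY hx⟩]
    exact h3.symm
  have hker : Y ≤ LinearMap.ker (E f - g).toLinearMap := by
    refine Submodule.topologicalClosure_minimal _ ?_ ?_
    · rw [Submodule.span_le]
      intro x hx
      exact LinearMap.mem_ker.mpr (hD' x hx)
    · exact (E f - g).isClosed_ker
  have h4 : (E f - g) (y : X) = 0 := LinearMap.mem_ker.mp (hker y.2)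
  rw [ContinuousLinearMap.sub_apply, hg y, sub_eq_zero] at h4
  exact h4

end Pool.Agent.H57.KN
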