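import Pool.Agent.H57.KN.E

/-!
The adjoint version: if the adjoints of all compact operators are nuclear, then all compact
operators are nuclear.  Duals of subspaces.
-/

namespace Pool.Agent.H57.KN

variable {𝕜 : Type*} [RCLike 𝕜]

/-- approximate representations give exact ones, for images under a linear map -/
theorem iterateΦ {Y : Type*} [NormedAddCommGroup Y] [NormedSpace 𝕜 Y]
    {E : Type*} [NormedAddCommGroup E] [NormedSpace 𝕜 E]
    {F : Type*} [NormedAddCommGroup F] [NormedSpace 𝕜 F] [CompleteSpace F]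
    (Φ : (Y →L[𝕜] Y) →L[𝕜] (E →L[𝕜] F))
    {C : ℝ} (hC : 0 ≤ C)
    (h : ∀ T : Y →L[𝕜] Y, IsCompactOperator T → ∀ ε : ℝ, 0 < ε →
      ∃ A : Y →L[𝕜] Y, IsCompactOperator A ∧ NucB (C * ‖T‖) (Φ A) ∧ ‖T - A‖ ≤ ε)
    (T : Y →L[𝕜] Y) (hT : IsCompactOperator T) : NucB (2 * C * ‖T‖) (Φ T) := by
  by_cases hT0 : T = 0
  · subst hT0
    simpa using (NucB.zero : NucB 0 (0 : E →L[𝕜] F))
  have hr : 0 < ‖T‖ := norm_pos_iff.2 hT0
  set r := ‖T‖ with hrdef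
  have hpos : ∀ k : ℕ, 0 < r / 2 ^ (k + 1) := fun k => by positivity
  choose A hAc hAn hAd using h
  let S : ℕ → {S : Y →L[𝕜] Y // IsCompactOperator S} := fun k =>
    Nat.rec ⟨T, hT⟩ (fun k S => ⟨S.1 - A S.1 S.2 (r / 2 ^ (k + 1)) (hpos k),
      S.2.sub (hAc S.1 S.2 _ (hpos k))⟩) k
  let B : ℕ → (Y →L[𝕜] Y) := fun k => A (S k).1 (S k).2 (r / 2 ^ (k + 1)) (hpos k)
  have hS0 : (S 0).1 = T := rfl
  have hS1 : ∀ k, (S (k + 1)).1 = (S k).1 - B k := fun k => rfl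
  have hSn : ∀ k, ‖(S k).1‖ ≤ r / 2 ^ k := by
    intro k
    rcases k with _ | k
    · simp [hS0, hrdef]
    · rw [hS1]
      exact hAd _ _ _ _
  have hBn : ∀ k, NucB (C * (r / 2 ^ k)) (Φ (B k)) := fun k =>
    (hAn (S k).1 (S k).2 _ (hpos k)).mono (mul_le_mul_of_nonneg_left (hSn k) hC)
  have hg : HasSum (fun k : ℕ => r / 2 ^ k) (r * 2) := by
    have := hasSum_geometric_two.mul_left r
    refine this.congr_fun ?_ |> fun h => h
    intro k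
    rw [one_div, inv_pow]
    rfl
  have hM : HasSum (fun k : ℕ => C * (r / 2 ^ k)) (C * (r * 2)) := hg.mul_left C
  have hBnorm : ∀ k, ‖B k‖ ≤ 2 * (r / 2 ^ k) := by
    intro k
    have h1 : B k = (S k).1 - (S (k + 1)).1 := by rw [hS1]; abel
    rw [h1]
    refine (norm_sub_le _ _).trans ?_
    have h2 := hSn k
    have h3 := hSn (k + 1)
    have h4 : r / 2 ^ (k + 1) ≤ r / 2 ^ k := by
      apply div_le_div_of_nonneg_left hr.le (by positivity)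
      exact pow_le_pow_right₀ one_le_two (Nat.le_succ k)
    linarith
  have hpart : ∀ n, ∑ k ∈ Finset.range n, B k = T - (S n).1 := by
    intro n
    induction n with
    | zero => simp [hS0]
    | succ n ih =>
      rw [Finset.sum_range_succ, ih, hS1]
      abel
  have hsum : ∀ x, HasSum (fun k => Φ (B k) x) (Φ T x) := by
    intro x
    have hle : ∀ (A : Y →L[𝕜] Y), ‖Φ A x‖ ≤ ‖A‖ * (‖Φ‖ * ‖x‖) := by
      intro A
      calc ‖Φ A x‖ ≤ ‖Φ A‖ * ‖x‖ := (Φ A).le_opNorm x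
        _ ≤ (‖Φ‖ * ‖A‖) * ‖x‖ := mul_le_mul_of_nonneg_right (Φ.le_opNorm A) (norm_nonneg _)
        _ = _ := by ring
    have hc : 0 ≤ ‖Φ‖ * ‖x‖ := by positivity
    have hsn : Summable fun k => ‖Φ (B k) x‖ := by
      refine Summable.of_nonneg_of_le (fun k => norm_nonneg _)
        (fun k => (hle (B k)).trans (mul_le_mul_of_nonneg_right (hBnorm k) hc)) ?_
      exact (hg.summable.mul_left 2).mul_right _
    rw [hasSum_iff_tendsto_nat_of_summable_norm hsn]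
    have h1 : ∀ n, ∑ k ∈ Finset.range n, Φ (B k) x = Φ T x - Φ (S n).1 x := by
      intro n
      have h2 : Φ (∑ k ∈ Finset.range n, B k) x = Φ (T - (S n).1) x := by rw [hpart n]
      rw [map_sum, map_sub, sum_apply, sub_apply] at h2
      exact h2
    simp_rw [h1]
    have h2 : Filter.Tendsto (fun n => Φ (S n).1 x) Filter.atTop (nhds 0) := by
      rw [tendsto_zero_iff_norm_tendsto_zero]
      have h3 : Filter.Tendsto (fun n : ℕ => r / 2 ^ n * (‖Φ‖ * ‖x‖)) Filter.atTop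
          (nhds (0 * (‖Φ‖ * ‖x‖))) :=
        hg.summable.tendsto_atTop_zero.mul_const _
      rw [zero_mul] at h3
      exact squeeze_zero (fun n => norm_nonneg _)
        (fun n => (hle (S n).1).trans (mul_le_mul_of_nonneg_right (hSn n) hc)) h3
    simpa using tendsto_const_nhds.sub h2
  have := NucB.tsum hBn hM.summable hsum
  rw [hM.tsum_eq] at this
  refine this.mono (le_of_eq ?_)
  ring

/-- uniform constant, for images under a linear map -/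
theorem uniformΦ {X : Type*} [NormedAddCommGroup X] [NormedSpace 𝕜 X] [CompleteSpace X]
    {E : Type*} [NormedAddCommGroup E] [NormedSpace 𝕜 E]
    {F : Type*} [NormedAddCommGroup F] [NormedSpace 𝕜 F] [CompleteSpace F]
    (Φ : (X →L[𝕜] X) →L[𝕜] (E →L[𝕜] F))
    (hnuc : ∀ T : X →L[𝕜] X, IsCompactOperator T → ∃ M : ℝ, NucB M (Φ T)) :
    ∃ C : ℝ, 0 ≤ C ∧ ∀ T : X →L[𝕜] X, IsCompactOperator T → NucB (C * ‖T‖) (Φ T) := by
  let K : Submodule 𝕜 (X →L[𝕜] X) :=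
    { carrier := {T | IsCompactOperator T}
      add_mem' := fun ha hb => ha.add hb
      zero_mem' := isCompactOperator_zero
      smul_mem' := fun c T hT => hT.smul c }
  have hKc : IsClosed (K : Set (X →L[𝕜] X)) := isClosed_setOfPred_isCompactOperator
  have _ : CompleteSpace K := hKc.completeSpace_coe
  let B : ℕ → Set K := fun k => {T | NucB (k : ℝ) (Φ (T : X →L[𝕜] X))}
  have hAu : ⋃ k, closure (B k) = Set.univ := by
    rw [Set.eq_univ_iff_forall]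
    rintro ⟨T, hT⟩
    obtain ⟨M, hM⟩ := hnuc T hT
    obtain ⟨k, hk⟩ := exists_nat_ge M
    exact Set.mem_iUnion.mpr ⟨k, subset_closure (hM.mono hk)⟩
  obtain ⟨k, T0, hT0⟩ := nonempty_interior_of_iUnion_of_closed (fun k => isClosed_closure) hAu
  rw [mem_interior_iff_mem_nhds, Metric.mem_nhds_iff] at hT0
  obtain ⟨r, hr, hball⟩ := hT0
  have hT0A : T0 ∈ closure (B k) := hball (Metric.mem_ball_self hr)
  have hC0 : (0 : ℝ) ≤ 4 * k / r := by positivity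
  refine ⟨2 * (4 * k / r), by positivity, ?_⟩
  refine iterateΦ Φ hC0 ?_
  intro T hT ε hε
  by_cases hz : T = 0
  · refine ⟨0, isCompactOperator_zero, ?_, ?_⟩
    · rw [hz]
      simpa using (NucB.zero : NucB 0 (0 : E →L[𝕜] F))
    · rw [hz]
      simpa using hε.le
  have hTn : 0 < ‖T‖ := norm_pos_iff.mpr hz
  set t : ℝ := r / (2 * ‖T‖) with htdef
  have ht : 0 < t := by positivity
  let T1 : K := T0 + ((t : ℝ) : 𝕜) • (⟨T, hT⟩ : K)
  have hT1 : T1 ∈ closure (B k) := by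
    apply hball
    rw [Metric.mem_ball, dist_eq_norm]
    have h1 : T1 - T0 = ((t : ℝ) : 𝕜) • (⟨T, hT⟩ : K) := by
      simp [T1]
    rw [h1]
    show ‖((t : ℝ) : 𝕜) • T‖ < r
    rw [norm_smul, RCLike.norm_ofReal, abs_of_pos ht]
    have : t * ‖T‖ = r / 2 := by
      rw [htdef]
      field_simp
    rw [this]
    linarith
  have hε1 : 0 < ε * t / 2 := by positivity
  obtain ⟨A1, hA1, hd1⟩ := Metric.mem_closure_iff.1 hT1 _ hε1
  obtain ⟨A2, hA2, hd2⟩ := Metric.mem_closure_iff.1 hT0A _ hε1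
  have hnt : ‖(((t : ℝ) : 𝕜))⁻¹‖ = t⁻¹ := by
    rw [norm_inv, RCLike.norm_ofReal, abs_of_pos ht]
  refine ⟨(((t : ℝ) : 𝕜))⁻¹ • ((A1 : X →L[𝕜] X) - (A2 : X →L[𝕜] X)), ?_, ?_, ?_⟩
  · exact (A1.2.sub A2.2).smul _
  · have h1 : NucB ((k : ℝ) + k) (Φ (A1 : X →L[𝕜] X) - Φ (A2 : X →L[𝕜] X)) := NucB.sub hA1 hA2
    have h2 := h1.smul (((t : ℝ) : 𝕜))⁻¹
    rw [hnt, ← map_sub, ← map_smul] at h2
    refine h2.mono (le_of_eq ?_)
    rw [htdef]
    field_simp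
    ring
  · have h3 : T - (((t : ℝ) : 𝕜))⁻¹ • ((A1 : X →L[𝕜] X) - (A2 : X →L[𝕜] X)) =
        (((t : ℝ) : 𝕜))⁻¹ • (((T1 : X →L[𝕜] X) - (A1 : X →L[𝕜] X)) -
          ((T0 : X →L[𝕜] X) - (A2 : X →L[𝕜] X))) := by
      have h4 : (T1 : X →L[𝕜] X) = (T0 : X →L[𝕜] X) + ((t : ℝ) : 𝕜) • T := rfl
      have h5 : (((t : ℝ) : 𝕜))⁻¹ • (((t : ℝ) : 𝕜) • T) = T := by
        rw [smul_smul, inv_mul_cancel₀, one_smul]
        exact RCLike.ofReal_ne_zero.2 ht.ne'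
      rw [h4]
      have h6 : (T0 : X →L[𝕜] X) + ((t : ℝ) : 𝕜) • T - (A1 : X →L[𝕜] X) -
          ((T0 : X →L[𝕜] X) - (A2 : X →L[𝕜] X)) =
          ((t : ℝ) : 𝕜) • T - ((A1 : X →L[𝕜] X) - (A2 : X →L[𝕜] X)) := by abel
      rw [h6, smul_sub (((t : ℝ) : 𝕜))⁻¹ (((t : ℝ) : 𝕜) • T)
        ((A1 : X →L[𝕜] X) - (A2 : X →L[𝕜] X)), h5]
    rw [h3, norm_smul, hnt]
    have h7 : ‖(T1 : X →L[𝕜] X) - (A1 : X →L[𝕜] X)‖ < ε * t / 2 := by
      rw [← dist_eq_norm]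
      exact hd1
    have h8 : ‖(T0 : X →L[𝕜] X) - (A2 : X →L[𝕜] X)‖ < ε * t / 2 := by
      rw [← dist_eq_norm]
      exact hd2
    have h9 := norm_sub_le ((T1 : X →L[𝕜] X) - (A1 : X →L[𝕜] X))
      ((T0 : X →L[𝕜] X) - (A2 : X →L[𝕜] X))
    rw [inv_mul_le_iff₀ ht]
    linarith

/-- if the adjoint of every compact operator is nuclear, every compact operator is nuclear -/
theorem adj {X : Type*} [NormedAddCommGroup X] [NormedSpace 𝕜 X] [CompleteSpace X]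
    (hX : ∀ T : X →L[𝕜] X, IsCompactOperator T →
      ∀ S : (X →L[𝕜] 𝕜) →L[𝕜] (X →L[𝕜] 𝕜), (∀ f, S f = f.comp T) → ∃ M : ℝ, NucB M S)
    (T : X →L[𝕜] X) (hT : IsCompactOperator T) : ∃ M : ℝ, NucB M T := by
  let Φ : (X →L[𝕜] X) →L[𝕜] ((X →L[𝕜] 𝕜) →L[𝕜] (X →L[𝕜] 𝕜)) :=
    (ContinuousLinearMap.compL 𝕜 X X 𝕜).flip
  have hΦ : ∀ T f, Φ T f = f.comp T := fun T f => rfl
  obtain ⟨C, hC, hu⟩ := uniformΦ Φ fun T hT => hX T hT (Φ T) (hΦ T)
  refine ⟨_, key (C := C) hC ?_ T hT⟩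
  intro T hT
  obtain ⟨g, x, hs, hle, hx⟩ := hu T hT
  have hcomm : (fun n => ‖x n‖ * ‖g n‖) = fun n => ‖g n‖ * ‖x n‖ := by
    funext n
    ring
  refine ⟨x, g, ?_, ?_, ?_⟩
  · rw [hcomm]
    exact hs
  · rw [hcomm]
    exact hle
  · intro y φ
    have h1 := (hx φ).mapL (ContinuousLinearMap.apply 𝕜 𝕜 y)
    have h2 : (ContinuousLinearMap.apply 𝕜 𝕜 y) (Φ T φ) = φ (T y) := rfl
    rw [h2] at h1
    refine h1.congr_fun ?_ |> fun h => h
    intro n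
    show x n y * g n φ = g n φ * x n y
    rw [mul_comm]

/-- the dual of a subspace with an extension operator -/
theorem dualsub {X : Type*} [NormedAddCommGroup X] [NormedSpace 𝕜 X]
    (hX : ∀ T : (X →L[𝕜] 𝕜) →L[𝕜] (X →L[𝕜] 𝕜), IsCompactOperator T → ∃ M : ℝ, NucB M T)
    (Y : Submodule 𝕜 X)
    (Ext : (Y →L[𝕜] 𝕜) →L[𝕜] (X →L[𝕜] 𝕜)) (hE : ∀ (f : Y →L[𝕜] 𝕜) (y : Y), Ext f (y : X) = f y)
    (T : (Y →L[𝕜] 𝕜) →L[𝕜] (Y →L[𝕜] 𝕜)) (hT : IsCompactOperator T) : ∃ M : ℝ, NucB M T := by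
  let R : (X →L[𝕜] 𝕜) →L[𝕜] (Y →L[𝕜] 𝕜) := (ContinuousLinearMap.compL 𝕜 Y X 𝕜).flip Y.subtypeL
  have hR : ∀ f, R (Ext f) = f := by
    intro f
    ext y
    exact hE f y
  obtain ⟨M, g, x, hs, hle, hx⟩ := hX (Ext.comp (T.comp R)) ((hT.comp_clm R).clm_comp Ext)
  have hb : ∀ n, ‖(g n).comp Ext‖ * ‖R (x n)‖ ≤ ‖Ext‖ * ‖R‖ * (‖g n‖ * ‖x n‖) := by
    intro n
    calc ‖(g n).comp Ext‖ * ‖R (x n)‖ ≤ (‖g n‖ * ‖Ext‖) * (‖R‖ * ‖x n‖) :=
          mul_le_mul ((g n).opNorm_comp_le Ext) (R.le_opNorm _) (norm_nonneg _) (by positivity)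
      _ = _ := by ring
  have hsum : Summable fun n => ‖(g n).comp Ext‖ * ‖R (x n)‖ :=
    Summable.of_nonneg_of_le (fun n => by positivity) hb (hs.mul_left _)
  refine ⟨_, fun n => (g n).comp Ext, fun n => R (x n), hsum, le_rfl, ?_⟩
  intro f
  have h1 := (hx (Ext f)).mapL R
  have h2 : R ((Ext.comp (T.comp R)) (Ext f)) = T f := by
    show R (Ext (T (R (Ext f)))) = T f
    rw [hR, hR]
  rw [h2] at h1
  refine h1.congr_fun ?_ |> fun h => h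
  intro n
  rw [map_smul]
  rfl

end Pool.Agent.H57.KN
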